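import Mathlib

/-! The measure of the set where a product of two linear forms is small. -/

set_option autoImplicit false

namespace Pool.Agent.D0H91.VM

open MeasureTheory Set Finset
open scoped ENNReal

theorem one_var (X Y c₁ c₂ : ℂ) (δ : ℝ) (hE : 0 < ‖X * c₂ - Y * c₁‖) :
    volume {v : ℝ | ‖X * v + c₁‖ * ‖Y * v + c₂‖ ≤ δ} ≤ ENNReal.ofReal (8 * (δ / ‖X * c₂ - Y * c₁‖)) := by
  obtain ⟨E, hEd⟩ : ∃ E, E = ‖X * c₂ - Y * c₁‖ := ⟨_, rfl⟩
  rw [← hEd] at hE ⊢
  -- one factor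
  have key : ∀ (Z W c d : ℂ) (v : ℝ), ‖Z * v + c‖ * ‖W * v + d‖ ≤ δ → E / 2 ≤ ‖Z‖ * ‖W * v + d‖ →
      v ∈ Set.Icc ((-(c / Z)).re - 2 * (δ / E)) ((-(c / Z)).re + 2 * (δ / E)) := by
    intro Z W c d v h1 h2
    have hZ : Z ≠ 0 := by
      rintro rfl
      rw [norm_zero, zero_mul] at h2
      linarith
    have hZ0 : 0 < ‖Z‖ := norm_pos_iff.2 hZ
    have h3 : Z * v + c = Z * ((v : ℂ) + c / Z) := by
      field_simp
    have h4 : |v + (c / Z).re| ≤ ‖(v : ℂ) + c / Z‖ := by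
      have := Complex.abs_re_le_norm ((v : ℂ) + c / Z)
      rwa [Complex.add_re, Complex.ofReal_re] at this
    have h5 : ‖Z * v + c‖ = ‖Z‖ * ‖(v : ℂ) + c / Z‖ := by rw [h3, norm_mul]
    have h6 : ‖(v : ℂ) + c / Z‖ * (E / 2) ≤ δ := by
      have a1 : ‖(v : ℂ) + c / Z‖ * (E / 2) ≤ ‖(v : ℂ) + c / Z‖ * (‖Z‖ * ‖W * v + d‖) :=
        mul_le_mul_of_nonneg_left h2 (norm_nonneg _)
      rw [h5] at h1
      calc _ ≤ _ := a1
        _ = ‖Z‖ * ‖(v : ℂ) + c / Z‖ * ‖W * v + d‖ := by ring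
        _ ≤ δ := h1
    have h7 : |v + (c / Z).re| ≤ 2 * (δ / E) := by
      refine h4.trans ?_
      rw [← mul_div_assoc, le_div_iff₀ hE]
      linarith
    rw [abs_le] at h7
    rw [Set.mem_Icc, Complex.neg_re]
    constructor <;> linarith [h7.1, h7.2]
  have hsub : {v : ℝ | ‖X * v + c₁‖ * ‖Y * v + c₂‖ ≤ δ} ⊆
      Set.Icc ((-(c₁ / X)).re - 2 * (δ / E)) ((-(c₁ / X)).re + 2 * (δ / E)) ∪
      Set.Icc ((-(c₂ / Y)).re - 2 * (δ / E)) ((-(c₂ / Y)).re + 2 * (δ / E)) := by
    intro v hv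
    rw [Set.mem_ofPred_eq] at hv
    have h1 : E ≤ ‖X‖ * ‖Y * v + c₂‖ + ‖Y‖ * ‖X * v + c₁‖ := by
      rw [hEd]
      have h2 : X * c₂ - Y * c₁ = X * (Y * v + c₂) - Y * (X * v + c₁) := by ring
      rw [h2]
      refine (norm_sub_le _ _).trans ?_
      rw [norm_mul, norm_mul]
    rcases le_total (E / 2) (‖X‖ * ‖Y * v + c₂‖) with h3 | h3
    · exact Or.inl (key X Y c₁ c₂ v hv h3)
    · refine Or.inr (key Y X c₂ c₁ v ?_ ?_)
      · rw [mul_comm]
        exact hv
      · linarith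
  refine (measure_mono hsub).trans ((measure_union_le _ _).trans ?_)
  rw [Real.volume_Icc, Real.volume_Icc]
  have e1 : ∀ a : ℝ, a + 2 * (δ / E) - (a - 2 * (δ / E)) = 4 * (δ / E) := fun a => by ring
  rw [e1, e1]
  rcases lt_or_ge δ 0 with hδ | hδ
  · have : 4 * (δ / E) ≤ 0 := by
      have := div_neg_of_neg_of_pos hδ hE
      linarith
    rw [ENNReal.ofReal_of_nonpos this, add_zero]
    exact bot_le
  · rw [← ENNReal.ofReal_add (by positivity) (by positivity)]
    apply ENNReal.ofReal_le_ofReal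
    linarith

theorem pow_int (η : ℝ) (hη : 0 < η) :
    ∫⁻ x, (Set.Ioc (0 : ℝ) 1).indicator (fun x => ENNReal.ofReal (x ^ (η - 1))) x = ENNReal.ofReal (1 / η) := by
  rw [lintegral_indicator measurableSet_Ioc]
  have h1 : IntervalIntegrable (fun x : ℝ => x ^ (η - 1)) volume 0 1 :=
    intervalIntegral.intervalIntegrable_rpow' (by linarith)
  rw [intervalIntegrable_iff_integrableOn_Ioc_of_le zero_le_one] at h1
  rw [← ofReal_integral_eq_lintegral_ofReal h1]
  · rw [← intervalIntegral.integral_of_le zero_le_one, integral_rpow (Or.inl (by linarith))]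
    congr 1
    rw [sub_add_cancel, Real.one_rpow, Real.zero_rpow hη.ne', sub_zero]
  · filter_upwards [ae_restrict_mem measurableSet_Ioc] with x hx
    exact Real.rpow_nonneg hx.1.le _

theorem pow_int' (η A u₀ : ℝ) (hη : 0 < η) (hη1 : η ≤ 1) (hA : 0 ≤ A) :
    ∫⁻ u in Set.Icc (-A) A, ENNReal.ofReal (|u - u₀| ^ (η - 1)) ≤ ENNReal.ofReal (2 / η + 2 * A) := by
  set h : ℝ → ℝ≥0∞ := (Set.Ioc (0 : ℝ) 1).indicator (fun x => ENNReal.ofReal (x ^ (η - 1))) with hh
  have hm : Measurable h := by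
    apply Measurable.indicator _ measurableSet_Ioc
    exact (measurable_id.pow_const _).ennreal_ofReal
  have h1 : ∀ u, u ≠ u₀ → ENNReal.ofReal (|u - u₀| ^ (η - 1)) ≤ h (u - u₀) + h (u₀ - u) + 1 := by
    intro u hu
    rcases lt_or_ge 1 |u - u₀| with h2 | h2
    · refine le_add_left ?_
      rw [← ENNReal.ofReal_one]
      apply ENNReal.ofReal_le_ofReal
      exact Real.rpow_le_one_of_one_le_of_nonpos h2.le (by linarith)
    · rcases lt_or_gt_of_ne hu with h3 | h3
      · have h4 : 0 < u₀ - u := by linarith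
        have h5 : |u - u₀| = u₀ - u := by
          rw [abs_of_neg (by linarith)]
          ring
        rw [h5] at h2 ⊢
        refine le_add_right (le_add_left (le_of_eq ?_))
        rw [hh, Set.indicator_of_mem (by exact ⟨h4, h2⟩)]
      · have h4 : 0 < u - u₀ := by linarith
        have h5 : |u - u₀| = u - u₀ := abs_of_pos h4
        rw [h5] at h2 ⊢
        refine le_add_right (le_add_right (le_of_eq ?_))
        rw [hh, Set.indicator_of_mem (by exact ⟨h4, h2⟩)]
  have h2 : ∫⁻ u in Set.Icc (-A) A, ENNReal.ofReal (|u - u₀| ^ (η - 1)) ≤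
      ∫⁻ u in Set.Icc (-A) A, (h (u - u₀) + h (u₀ - u) + 1) := by
    apply lintegral_mono_ae
    apply ae_restrict_of_ae
    have : ∀ᵐ u : ℝ, u ≠ u₀ := by
      rw [ae_iff]
      simp
    filter_upwards [this] with u hu
    exact h1 u hu
  refine h2.trans ?_
  have hm1 : Measurable fun u : ℝ => h (u - u₀) := hm.comp (measurable_id.sub_const _)
  rw [lintegral_add_right _ measurable_const, lintegral_add_left hm1]
  have h3 : ∫⁻ u in Set.Icc (-A) A, h (u - u₀) ≤ ENNReal.ofReal (1 / η) := by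
    refine (setLIntegral_le_lintegral _ _).trans ?_
    rw [lintegral_sub_right_eq_self h u₀, hh, pow_int η hη]
  have h4 : ∫⁻ u in Set.Icc (-A) A, h (u₀ - u) ≤ ENNReal.ofReal (1 / η) := by
    refine (setLIntegral_le_lintegral _ _).trans ?_
    rw [lintegral_sub_left_eq_self h u₀, hh, pow_int η hη]
  have h5 : ∫⁻ u in Set.Icc (-A) A, (1 : ℝ≥0∞) = ENNReal.ofReal (2 * A) := by
    rw [setLIntegral_one, Real.volume_Icc]
    congr 1
    ring
  rw [h5]
  refine (add_le_add (add_le_add h3 h4) le_rfl).trans (le_of_eq ?_)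
  rw [← ENNReal.ofReal_add (by positivity) (by positivity), ← ENNReal.ofReal_add (by positivity) (by positivity)]
  congr 1
  ring

theorem min_pow {a b η : ℝ} (ha : 0 ≤ a) (hb : 0 ≤ b) (hη : 0 ≤ η) (hη1 : η ≤ 1) :
    min a b ≤ a ^ η * b ^ (1 - η) := by
  rcases le_total a b with h | h
  · rw [min_eq_left h]
    rcases eq_or_lt_of_le ha with h0 | h0
    · rw [← h0]
      rcases eq_or_lt_of_le hη with h1 | h1
      · rw [← h1]
        simp only [Real.rpow_zero, sub_zero, Real.rpow_one, one_mul]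
        exact hb
      · rw [Real.zero_rpow h1.ne', zero_mul]
    · calc a = a ^ η * a ^ (1 - η) := by
            rw [← Real.rpow_add h0]
            rw [add_sub_cancel, Real.rpow_one]
        _ ≤ _ := by
            apply mul_le_mul_of_nonneg_left _ (by positivity)
            exact Real.rpow_le_rpow ha h (by linarith)
  · rw [min_eq_right h]
    rcases eq_or_lt_of_le hb with h0 | h0
    · rw [← h0]
      rcases eq_or_lt_of_le hη1 with h1 | h1
      · rw [h1]
        simp only [sub_self, Real.rpow_zero, Real.rpow_one, mul_one]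
        exact ha
      · rw [Real.zero_rpow (by linarith), mul_zero]
    · calc b = b ^ η * b ^ (1 - η) := by
            rw [← Real.rpow_add h0]
            rw [add_sub_cancel, Real.rpow_one]
        _ ≤ _ := by
            apply mul_le_mul_of_nonneg_right _ (by positivity)
            exact Real.rpow_le_rpow hb h hη

/-- two variables -/
theorem two_var (X X' Y Y' c₁ c₂ : ℂ) (δ A η : ℝ) (hδ : 0 ≤ δ) (hA : 0 ≤ A) (hη : 0 < η) (hη1 : η ≤ 1)
    (hd : 0 < ‖X' * Y - Y' * X‖) :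
    ∫⁻ u in Set.Icc (-A) A, volume (Set.Icc (-A) A ∩
      {v : ℝ | ‖X' * v + (X * u + c₁)‖ * ‖Y' * v + (Y * u + c₂)‖ ≤ δ}) ≤
    ENNReal.ofReal ((2 * A) ^ η * (8 * (δ / ‖X' * Y - Y' * X‖)) ^ (1 - η) * (2 / η + 2 * A)) := by
  obtain ⟨d, hdd⟩ : ∃ d, d = X' * Y - Y' * X := ⟨_, rfl⟩
  rw [← hdd] at hd ⊢
  have hd0 : d ≠ 0 := norm_pos_iff.1 hd
  obtain ⟨u₀, hu₀⟩ : ∃ u₀ : ℝ, u₀ = -((X' * c₂ - Y' * c₁) / d).re := ⟨_, rfl⟩
  obtain ⟨K, hK⟩ : ∃ K : ℝ, K = (2 * A) ^ η * (8 * (δ / ‖d‖)) ^ (1 - η) := ⟨_, rfl⟩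
  have hK0 : 0 ≤ K := by
    rw [hK]
    positivity
  have h1 : ∀ u : ℝ, u ≠ u₀ → volume (Set.Icc (-A) A ∩
      {v : ℝ | ‖X' * v + (X * u + c₁)‖ * ‖Y' * v + (Y * u + c₂)‖ ≤ δ}) ≤
      ENNReal.ofReal (K * |u - u₀| ^ (η - 1)) := by
    intro u hu
    have hu1 : 0 < |u - u₀| := abs_pos.2 (sub_ne_zero.2 hu)
    have h2 : ‖d‖ * |u - u₀| ≤ ‖X' * (Y * u + c₂) - Y' * (X * u + c₁)‖ := by
      have e1 : X' * (Y * u + c₂) - Y' * (X * u + c₁) = d * ((u : ℂ) + (X' * c₂ - Y' * c₁) / d) := by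
        rw [mul_add d, mul_div_cancel₀ _ hd0, hdd]
        ring
      rw [e1, norm_mul]
      apply mul_le_mul_of_nonneg_left _ (norm_nonneg _)
      have := Complex.abs_re_le_norm ((u : ℂ) + (X' * c₂ - Y' * c₁) / d)
      rw [Complex.add_re, Complex.ofReal_re] at this
      refine le_trans (le_of_eq ?_) this
      rw [hu₀]
      congr 1
      ring
    have h3 : 0 < ‖X' * (Y * u + c₂) - Y' * (X * u + c₁)‖ := lt_of_lt_of_le (by positivity) h2
    have h4 : volume (Set.Icc (-A) A ∩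
      {v : ℝ | ‖X' * v + (X * u + c₁)‖ * ‖Y' * v + (Y * u + c₂)‖ ≤ δ}) ≤
      ENNReal.ofReal (min (2 * A) (8 * (δ / (‖d‖ * |u - u₀|)))) := by
      rw [ENNReal.ofReal_min]
      refine le_min ?_ ?_
      · refine (measure_mono Set.inter_subset_left).trans ?_
        rw [Real.volume_Icc]
        apply ENNReal.ofReal_le_ofReal
        linarith
      · refine (measure_mono Set.inter_subset_right).trans ((one_var X' Y' _ _ δ h3).trans ?_)
        apply ENNReal.ofReal_le_ofReal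
        apply mul_le_mul_of_nonneg_left _ (by norm_num)
        exact div_le_div_of_nonneg_left hδ (by positivity) h2
    refine h4.trans (ENNReal.ofReal_le_ofReal ?_)
    refine (min_pow (by positivity) (by positivity) hη.le hη1).trans (le_of_eq ?_)
    rw [hK, mul_assoc]
    congr 1
    have e2 : 8 * (δ / (‖d‖ * |u - u₀|)) = 8 * (δ / ‖d‖) * |u - u₀|⁻¹ := by
      field_simp
    rw [e2, Real.mul_rpow (by positivity) (by positivity)]
    congr 1
    rw [Real.inv_rpow hu1.le, ← Real.rpow_neg hu1.le]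
    congr 1
    ring
  have h5 : ∫⁻ u in Set.Icc (-A) A, volume (Set.Icc (-A) A ∩
      {v : ℝ | ‖X' * v + (X * u + c₁)‖ * ‖Y' * v + (Y * u + c₂)‖ ≤ δ}) ≤
      ∫⁻ u in Set.Icc (-A) A, ENNReal.ofReal K * ENNReal.ofReal (|u - u₀| ^ (η - 1)) := by
    apply lintegral_mono_ae
    apply ae_restrict_of_ae
    have : ∀ᵐ u : ℝ, u ≠ u₀ := by
      rw [ae_iff]
      simp
    filter_upwards [this] with u hu
    refine (h1 u hu).trans (le_of_eq ?_)
    rw [ENNReal.ofReal_mul hK0]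
  refine h5.trans ?_
  rw [lintegral_const_mul' _ _ ENNReal.ofReal_ne_top]
  refine (mul_le_mul_right (pow_int' η A u₀ hη hη1 hA) _).trans ?_
  rw [← ENNReal.ofReal_mul hK0, hK]

/-- the product of two linear forms on a box -/
theorem multi {I : Type*} [Fintype I] [DecidableEq I] (X Y : I → ℂ) (s s' : I) (hs : s ≠ s')
    (δ A η : ℝ) (hδ : 0 ≤ δ) (hA : 0 ≤ A) (hη : 0 < η) (hη1 : η ≤ 1)
    (hd : 0 < ‖X s' * Y s - Y s' * X s‖) :
    (Measure.pi fun _ : I => volume.restrict (Set.Icc (-A) A))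
      {g : I → ℝ | ‖∑ i, (g i : ℂ) * X i‖ * ‖∑ i, (g i : ℂ) * Y i‖ ≤ δ} ≤
    ENNReal.ofReal ((2 * A) ^ η * (8 * (δ / ‖X s' * Y s - Y s' * X s‖)) ^ (1 - η) * (2 / η + 2 * A)) *
      (ENNReal.ofReal (2 * A)) ^ (Fintype.card I - 2) := by
  obtain ⟨μ, hμ⟩ : ∃ μ : I → Measure ℝ, μ = fun _ : I => volume.restrict (Set.Icc (-A) A) := ⟨_, rfl⟩
  rw [← hμ]
  have : ∀ i, SigmaFinite (μ i) := by
    intro i
    rw [hμ]
    infer_instance
  obtain ⟨T, hT⟩ : ∃ T : ℝ≥0∞, T = ENNReal.ofReal ((2 * A) ^ η *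
    (8 * (δ / ‖X s' * Y s - Y s' * X s‖)) ^ (1 - η) * (2 / η + 2 * A)) := ⟨_, rfl⟩
  rw [← hT]
  set S : Set (I → ℝ) := {g : I → ℝ | ‖∑ i, (g i : ℂ) * X i‖ * ‖∑ i, (g i : ℂ) * Y i‖ ≤ δ} with hS
  have hSm : MeasurableSet S := by
    apply measurableSet_le _ measurable_const
    apply Measurable.mul
    · exact (Finset.measurable_fun_sum _ fun i _ =>
        ((Complex.measurable_ofReal.comp (measurable_pi_apply i)).mul_const _)).norm
    · exact (Finset.measurable_fun_sum _ fun i _ =>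
        ((Complex.measurable_ofReal.comp (measurable_pi_apply i)).mul_const _)).norm
  have hSf : Measurable (S.indicator (1 : (I → ℝ) → ℝ≥0∞)) := measurable_one.indicator hSm
  rw [← lintegral_indicator_one hSm]
  rw [lintegral_eq_lmarginal_univ (μ := μ) (fun _ => 0), lmarginal_erase' _ hSf (Finset.mem_univ s')]
  have hSf2 : Measurable (fun x : I → ℝ => ∫⁻ v, S.indicator (1 : (I → ℝ) → ℝ≥0∞) (Function.update x s' v) ∂μ s') := by
    rw [← lmarginal_singleton]
    exact hSf.lmarginal μ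
  rw [lmarginal_erase' _ hSf2 (Finset.mem_erase.2 ⟨hs, Finset.mem_univ s⟩)]
  -- the bound for the two inner integrals
  have hin : ∀ x : I → ℝ, ∫⁻ u, (∫⁻ v, S.indicator (1 : (I → ℝ) → ℝ≥0∞)
      (Function.update (Function.update x s u) s' v) ∂μ s') ∂μ s ≤ T := by
    intro x
    obtain ⟨c₁, hc₁⟩ : ∃ c₁ : ℂ, c₁ = ∑ i ∈ (univ.erase s').erase s, (x i : ℂ) * X i := ⟨_, rfl⟩
    obtain ⟨c₂, hc₂⟩ : ∃ c₂ : ℂ, c₂ = ∑ i ∈ (univ.erase s').erase s, (x i : ℂ) * Y i := ⟨_, rfl⟩
    have hsum : ∀ (Z : I → ℂ) (u v : ℝ), ∑ i, ((Function.update (Function.update x s u) s' v i : ℝ) : ℂ) * Z i =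
        Z s' * v + (Z s * u + ∑ i ∈ (univ.erase s').erase s, (x i : ℂ) * Z i) := by
      intro Z u v
      rw [← Finset.add_sum_erase univ _ (Finset.mem_univ s'),
        ← Finset.add_sum_erase (univ.erase s') _ (Finset.mem_erase.2 ⟨hs, Finset.mem_univ s⟩)]
      rw [Function.update_self, Function.update_of_ne hs, Function.update_self]
      have : ∀ i ∈ (univ.erase s').erase s, ((Function.update (Function.update x s u) s' v i : ℝ) : ℂ) * Z i =
          (x i : ℂ) * Z i := by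
        intro i hi
        rw [Finset.mem_erase, Finset.mem_erase] at hi
        rw [Function.update_of_ne hi.2.1, Function.update_of_ne hi.1]
      rw [Finset.sum_congr rfl this]
      ring
    have h1 : ∀ u, ∫⁻ v, S.indicator (1 : (I → ℝ) → ℝ≥0∞)
        (Function.update (Function.update x s u) s' v) ∂μ s' =
        volume (Set.Icc (-A) A ∩
          {v : ℝ | ‖X s' * v + (X s * u + c₁)‖ * ‖Y s' * v + (Y s * u + c₂)‖ ≤ δ}) := by
      intro u
      have h2 : (fun v => S.indicator (1 : (I → ℝ) → ℝ≥0∞) (Function.update (Function.update x s u) s' v)) =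
          {v : ℝ | ‖X s' * v + (X s * u + c₁)‖ * ‖Y s' * v + (Y s * u + c₂)‖ ≤ δ}.indicator 1 := by
        funext v
        have hiff : Function.update (Function.update x s u) s' v ∈ S ↔
            v ∈ {v : ℝ | ‖X s' * v + (X s * u + c₁)‖ * ‖Y s' * v + (Y s * u + c₂)‖ ≤ δ} := by
          rw [hS, Set.mem_ofPred_eq, Set.mem_ofPred_eq, hsum X, hsum Y, ← hc₁, ← hc₂]
        by_cases hv : v ∈ {v : ℝ | ‖X s' * v + (X s * u + c₁)‖ * ‖Y s' * v + (Y s * u + c₂)‖ ≤ δ}
        · rw [Set.indicator_of_mem hv, Set.indicator_of_mem (hiff.2 hv)]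
          rfl
        · rw [Set.indicator_of_notMem hv, Set.indicator_of_notMem (fun h => hv (hiff.1 h))]
      rw [h2, lintegral_indicator_one, hμ]
      · simp only
        rw [Measure.restrict_apply, Set.inter_comm]
        apply measurableSet_le _ measurable_const
        fun_prop
      · apply measurableSet_le _ measurable_const
        fun_prop
    simp only [h1]
    rw [hμ, hT]
    exact two_var (X s) (X s') (Y s) (Y s') c₁ c₂ δ A η hδ hA hη hη1 hd
  refine (lmarginal_mono (μ := μ) (g := fun _ => T) (fun x => hin x) _).trans ?_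
  unfold lmarginal
  rw [lintegral_const]
  apply mul_le_mul_right
  rw [Measure.pi_univ]
  rw [hμ]
  simp only [Measure.restrict_apply MeasurableSet.univ, Set.univ_inter, Real.volume_Icc]
  rw [Finset.prod_const]
  have e1 : (univ : Finset ((univ.erase s').erase s : Finset I)).card = Fintype.card I - 2 := by
    rw [Finset.card_univ, Fintype.card_coe, Finset.card_erase_of_mem (Finset.mem_erase.2 ⟨hs, Finset.mem_univ s⟩),
      Finset.card_erase_of_mem (Finset.mem_univ s'), Finset.card_univ]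
    omega
  rw [e1]
  have e2 : A - -A = 2 * A := by ring
  rw [e2]

end Pool.Agent.D0H91.VM
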