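import Mathlib
import Pool.Agent.D0H91.VM.Meas

/-! Values of forms, minors of Veronese vectors, the geometry of the two conjugate vectors. -/

set_option autoImplicit false

namespace Pool.Agent.D0H91.VM

open Finset

/-- the monomial with index `s` at `x` -/
noncomputable def mon {n e : ℕ} (x : Fin (n + 1) → ℂ) (s : Sym (Fin (n + 1)) e) : ℂ :=
  ((s : Multiset (Fin (n + 1))).map x).prod

/-- the value at `x` of the form with coefficients `g` -/
noncomputable def ev {n e : ℕ} (g : Sym (Fin (n + 1)) e → ℝ) (x : Fin (n + 1) → ℂ) : ℂ :=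
  ∑ s, (g s : ℂ) * mon x s

theorem mon_smul {n e : ℕ} (c : ℂ) (x : Fin (n + 1) → ℂ) (s : Sym (Fin (n + 1)) e) :
    mon (c • x) s = c ^ e * mon x s := by
  unfold mon
  have h1 : (s : Multiset (Fin (n + 1))).map (c • x) = (s : Multiset (Fin (n + 1))).map (fun i => c * x i) := rfl
  rw [h1, Multiset.prod_map_mul, Multiset.map_const', Multiset.prod_replicate, Sym.card_coe]

theorem ev_smul {n e : ℕ} (g : Sym (Fin (n + 1)) e → ℝ) (c : ℂ) (x : Fin (n + 1) → ℂ) :
    ev g (c • x) = c ^ e * ev g x := by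
  unfold ev
  rw [Finset.mul_sum]
  refine Finset.sum_congr rfl fun s _ => ?_
  rw [mon_smul]
  ring

theorem mon_rep {n e : ℕ} (x : Fin (n + 1) → ℂ) (i : Fin (n + 1)) :
    mon x (Sym.replicate e i) = x i ^ e := by
  unfold mon
  rw [Sym.coe_replicate, Multiset.map_replicate, Multiset.prod_replicate]

theorem mon_cons {n e : ℕ} (x : Fin (n + 1) → ℂ) (j : Fin (n + 1)) (s : Sym (Fin (n + 1)) e) :
    mon x (j ::ₛ s) = x j * mon x s := by
  unfold mon
  rw [Sym.coe_cons, Multiset.map_cons, Multiset.prod_cons]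

theorem mon_norm {n e : ℕ} (x : Fin (n + 1) → ℂ) (s : Sym (Fin (n + 1)) e) : ‖mon x s‖ ≤ ‖x‖ ^ e := by
  unfold mon
  have h : ∀ m : Multiset (Fin (n + 1)), ‖(m.map x).prod‖ ≤ ‖x‖ ^ (Multiset.card m) := by
    intro m
    induction m using Multiset.induction_on with
    | empty => simp
    | cons a m ih =>
      rw [Multiset.map_cons, Multiset.prod_cons, norm_mul, Multiset.card_cons, pow_succ, mul_comm]
      exact mul_le_mul ih (norm_le_pi_norm x a) (norm_nonneg _) (by positivity)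
  refine (h _).trans (le_of_eq ?_)
  rw [Sym.card_coe]

theorem max_coord {n : ℕ} (x : Fin (n + 1) → ℂ) : ∃ i, ‖x i‖ = ‖x‖ := by
  obtain ⟨i, hi⟩ := Finite.exists_max (fun i => ‖x i‖)
  refine ⟨i, le_antisymm (norm_le_pi_norm x i) ?_⟩
  rw [pi_norm_le_iff_of_nonneg (norm_nonneg _)]
  exact hi

/-- a large minor of two Veronese vectors -/
theorem veronese {n e : ℕ} (x y : Fin (n + 1) → ℂ) (p q : Fin (n + 1)) :
    ∃ s s' : Sym (Fin (n + 1)) (e + 1), (‖x‖ * ‖y‖) ^ e * ‖x p * y q - x q * y p‖ ≤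
      2 ^ (e + 2) * ‖mon x s' * mon y s - mon y s' * mon x s‖ := by
  obtain ⟨i, hi⟩ := max_coord x
  obtain ⟨k, hk⟩ := max_coord y
  obtain ⟨a, ha⟩ : ∃ a, a = ‖x‖ := ⟨_, rfl⟩
  obtain ⟨b, hb⟩ : ∃ b, b = ‖y‖ := ⟨_, rfl⟩
  rw [← ha, ← hb]
  rw [← ha] at hi
  rw [← hb] at hk
  have ha0 : 0 ≤ a := by
    rw [ha]
    exact norm_nonneg _
  have hb0 : 0 ≤ b := by
    rw [hb]
    exact norm_nonneg _
  have hxl : ∀ j, ‖x j‖ ≤ a := by
    rw [ha]
    exact norm_le_pi_norm x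
  have hyl : ∀ j, ‖y j‖ ≤ b := by
    rw [hb]
    exact norm_le_pi_norm y
  obtain ⟨W, hW⟩ : ∃ W, W = ‖x p * y q - x q * y p‖ := ⟨_, rfl⟩
  rw [← hW]
  have hW0 : 0 ≤ W := by
    rw [hW]
    exact norm_nonneg _
  have hWab : W ≤ 2 * (a * b) := by
    rw [hW]
    refine (norm_sub_le _ _).trans ?_
    rw [norm_mul, norm_mul]
    have h1 := mul_le_mul (hxl p) (hyl q) (norm_nonneg _) ha0
    have h2 := mul_le_mul (hxl q) (hyl p) (norm_nonneg _) ha0
    linarith
  have hab : 0 ≤ a * b := mul_nonneg ha0 hb0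
  rcases le_total (b / 2) ‖y i‖ with h | h
  · -- a minor with `x i` in both columns
    have h1 : a * W ≤ a * ‖x i * y q - x q * y i‖ + a * ‖x i * y p - x p * y i‖ := by
      have e1 : x i * (x p * y q - x q * y p) =
          x p * (x i * y q - x q * y i) - x q * (x i * y p - x p * y i) := by ring
      calc a * W = ‖x i * (x p * y q - x q * y p)‖ := by rw [norm_mul, hi, hW]
        _ ≤ ‖x p * (x i * y q - x q * y i)‖ + ‖x q * (x i * y p - x p * y i)‖ := by
            rw [e1]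
            exact norm_sub_le _ _
        _ ≤ _ := by
            rw [norm_mul, norm_mul]
            exact add_le_add (mul_le_mul_of_nonneg_right (hxl p) (norm_nonneg _))
              (mul_le_mul_of_nonneg_right (hxl q) (norm_nonneg _))
    have h2 : ∃ j, (a * b) ^ e * W ≤ 2 ^ (e + 2) * ((a * (b / 2)) ^ e * ‖x j * y i - y j * x i‖) := by
      rcases eq_or_lt_of_le ha0 with h0 | h0
      · refine ⟨i, ?_⟩
        have : W = 0 := by
          have : W ≤ 0 := by
            rw [← h0] at hWab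
            simpa using hWab
          exact le_antisymm this hW0
        rw [this, mul_zero]
        positivity
      · have h3 : W ≤ ‖x i * y q - x q * y i‖ + ‖x i * y p - x p * y i‖ := by
          rw [← mul_add] at h1
          exact le_of_mul_le_mul_left h1 h0
        have h4 : ∃ j, W ≤ 2 * ‖x j * y i - y j * x i‖ := by
          by_contra hcon
          push Not at hcon
          have c1 := hcon q
          have c2 := hcon p
          have e2 : ‖x q * y i - y q * x i‖ = ‖x i * y q - x q * y i‖ := by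
            rw [← norm_neg]
            congr 1
            ring
          have e3 : ‖x p * y i - y p * x i‖ = ‖x i * y p - x p * y i‖ := by
            rw [← norm_neg]
            congr 1
            ring
          rw [e2] at c1
          rw [e3] at c2
          linarith
        obtain ⟨j, hj⟩ := h4
        refine ⟨j, ?_⟩
        calc (a * b) ^ e * W ≤ (a * b) ^ e * (2 * ‖x j * y i - y j * x i‖) :=
              mul_le_mul_of_nonneg_left hj (by positivity)
          _ ≤ (a * b) ^ e * (4 * ‖x j * y i - y j * x i‖) := by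
              apply mul_le_mul_of_nonneg_left _ (by positivity)
              have := norm_nonneg (x j * y i - y j * x i)
              linarith
          _ = 2 ^ (e + 2) * ((a * (b / 2)) ^ e * ‖x j * y i - y j * x i‖) := by
              have e4 : a * b = 2 * (a * (b / 2)) := by ring
              rw [e4, mul_pow, pow_add]
              ring
    obtain ⟨j, hj⟩ := h2
    refine ⟨Sym.replicate (e + 1) i, j ::ₛ Sym.replicate e i, hj.trans ?_⟩
    apply mul_le_mul_of_nonneg_left _ (by positivity)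
    rw [mon_rep, mon_rep, mon_cons, mon_cons, mon_rep, mon_rep]
    have e5 : x j * x i ^ e * y i ^ (e + 1) - y j * y i ^ e * x i ^ (e + 1) =
        (x i * y i) ^ e * (x j * y i - y j * x i) := by ring
    rw [e5, norm_mul, norm_pow, norm_mul, hi]
    apply mul_le_mul_of_nonneg_right _ (norm_nonneg _)
    apply pow_le_pow_left₀ (by positivity)
    exact mul_le_mul_of_nonneg_left h ha0
  · -- two different coordinates
    refine ⟨Sym.replicate (e + 1) k, Sym.replicate (e + 1) i, ?_⟩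
    rw [mon_rep, mon_rep, mon_rep, mon_rep]
    have h1 : (a * b) ^ (e + 1) ≤ 2 * ‖x i ^ (e + 1) * y k ^ (e + 1) - y i ^ (e + 1) * x k ^ (e + 1)‖ := by
      have h2 := norm_sub_norm_le (x i ^ (e + 1) * y k ^ (e + 1)) (y i ^ (e + 1) * x k ^ (e + 1))
      rw [norm_mul, norm_mul, norm_pow, norm_pow, norm_pow, norm_pow, hi, hk, ← mul_pow, ← mul_pow] at h2
      have h3 : (‖y i‖ * ‖x k‖) ^ (e + 1) ≤ (a * b) ^ (e + 1) / 2 := by
        calc (‖y i‖ * ‖x k‖) ^ (e + 1) ≤ (b / 2 * a) ^ (e + 1) :=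
              pow_le_pow_left₀ (by positivity) (mul_le_mul h (hxl k) (norm_nonneg _) (by positivity)) _
          _ = (a * b) ^ (e + 1) / 2 ^ (e + 1) := by
              rw [← div_pow]
              congr 1
              ring
          _ ≤ (a * b) ^ (e + 1) / 2 := by
              apply div_le_div_of_nonneg_left (by positivity) (by norm_num)
              calc (2 : ℝ) = 2 ^ 1 := (pow_one _).symm
                _ ≤ 2 ^ (e + 1) := pow_le_pow_right₀ (by norm_num) (by omega)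
      linarith
    calc (a * b) ^ e * W ≤ (a * b) ^ e * (2 * (a * b)) := mul_le_mul_of_nonneg_left hWab (by positivity)
      _ = 2 * (a * b) ^ (e + 1) := by ring
      _ ≤ 2 * (2 * ‖x i ^ (e + 1) * y k ^ (e + 1) - y i ^ (e + 1) * x k ^ (e + 1)‖) := by linarith
      _ ≤ 2 ^ (e + 2) * ‖x i ^ (e + 1) * y k ^ (e + 1) - y i ^ (e + 1) * x k ^ (e + 1)‖ := by
          rw [← mul_assoc]
          apply mul_le_mul_of_nonneg_right _ (norm_nonneg _)
          calc (2 : ℝ) * 2 = 2 ^ 2 := by norm_num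
            _ ≤ 2 ^ (e + 2) := pow_le_pow_right₀ (by norm_num) (by omega)

/-- the scalar product of integer vectors -/
def sp {n : ℕ} (u v : Fin (n + 1) → ℤ) : ℤ := ∑ i, u i * v i

/-- reduced pairs -/
def Red {n : ℕ} (u v : Fin (n + 1) → ℤ) : Prop :=
  0 < sp u u ∧ 0 < sp v v ∧ 2 * |sp u v| ≤ sp u u ∧ 2 * |sp u v| ≤ sp v v

/-- combination with complex coefficients -/
noncomputable def cb {n : ℕ} (α β : ℂ) (u v : Fin (n + 1) → ℤ) : Fin (n + 1) → ℂ := fun i => α * u i + β * v i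

theorem cb_sq {n : ℕ} (α β : ℂ) (u v : Fin (n + 1) → ℤ) (h : Red u v) :
    ‖α‖ ^ 2 * (sp u u : ℝ) + ‖β‖ ^ 2 * (sp v v : ℝ) ≤ 2 * (n + 1) * ‖cb α β u v‖ ^ 2 := by
  obtain ⟨h1, h2, h3, h4⟩ := h
  have hN1 : (0 : ℝ) < (sp u u : ℝ) := by exact_mod_cast h1
  have hN2 : (0 : ℝ) < (sp v v : ℝ) := by exact_mod_cast h2
  have hP1 : 2 * |(sp u v : ℝ)| ≤ (sp u u : ℝ) := by exact_mod_cast h3
  have hP2 : 2 * |(sp u v : ℝ)| ≤ (sp v v : ℝ) := by exact_mod_cast h4
  have e1 : ∑ i, ‖cb α β u v i‖ ^ 2 = ‖α‖ ^ 2 * (sp u u : ℝ) + 2 * (α * (starRingEnd ℂ) β).re * (sp u v : ℝ) +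
      ‖β‖ ^ 2 * (sp v v : ℝ) := by
    have e2 : ∀ i, ‖cb α β u v i‖ ^ 2 = ‖α‖ ^ 2 * ((u i * u i : ℤ) : ℝ) +
        2 * (α * (starRingEnd ℂ) β).re * ((u i * v i : ℤ) : ℝ) + ‖β‖ ^ 2 * ((v i * v i : ℤ) : ℝ) := by
      intro i
      unfold cb
      rw [← Complex.normSq_eq_norm_sq, ← Complex.normSq_eq_norm_sq, ← Complex.normSq_eq_norm_sq,
        Complex.normSq_apply, Complex.normSq_apply, Complex.normSq_apply]
      simp only [Complex.add_re, Complex.add_im, Complex.mul_re, Complex.mul_im, Complex.intCast_re,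
        Complex.intCast_im, Complex.conj_re, Complex.conj_im]
      push_cast
      ring
    rw [Finset.sum_congr rfl fun i _ => e2 i, Finset.sum_add_distrib, Finset.sum_add_distrib,
      ← Finset.mul_sum, ← Finset.mul_sum, ← Finset.mul_sum]
    unfold sp
    push_cast
    ring
  have e3 : ∑ i, ‖cb α β u v i‖ ^ 2 ≤ (n + 1) * ‖cb α β u v‖ ^ 2 := by
    calc ∑ i, ‖cb α β u v i‖ ^ 2 ≤ ∑ i : Fin (n + 1), ‖cb α β u v‖ ^ 2 :=
          Finset.sum_le_sum fun i _ => pow_le_pow_left₀ (norm_nonneg _) (norm_le_pi_norm _ i) 2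
      _ = _ := by
          rw [Finset.sum_const, Finset.card_univ, Fintype.card_fin, nsmul_eq_mul]
          push_cast
          ring
  have e4 : |(α * (starRingEnd ℂ) β).re| ≤ ‖α‖ * ‖β‖ := by
    refine (Complex.abs_re_le_norm _).trans ?_
    rw [norm_mul, Complex.norm_conj]
  have e5 : |2 * (α * (starRingEnd ℂ) β).re * (sp u v : ℝ)| ≤ 2 * (‖α‖ * ‖β‖) * |(sp u v : ℝ)| := by
    rw [abs_mul, abs_mul, abs_two]
    apply mul_le_mul_of_nonneg_right _ (abs_nonneg _)
    linarith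
  have e6 : 2 * (‖α‖ * ‖β‖) * |(sp u v : ℝ)| ≤ (‖α‖ ^ 2 * (sp u u : ℝ) + ‖β‖ ^ 2 * (sp v v : ℝ)) / 2 := by
    have q1 : 2 * (‖α‖ * ‖β‖) ≤ ‖α‖ ^ 2 + ‖β‖ ^ 2 := by nlinarith [sq_nonneg (‖α‖ - ‖β‖)]
    have q2 : 2 * (‖α‖ * ‖β‖) * |(sp u v : ℝ)| ≤ (‖α‖ ^ 2 + ‖β‖ ^ 2) * |(sp u v : ℝ)| :=
      mul_le_mul_of_nonneg_right q1 (abs_nonneg _)
    have q3 : ‖α‖ ^ 2 * (2 * |(sp u v : ℝ)|) ≤ ‖α‖ ^ 2 * (sp u u : ℝ) :=
      mul_le_mul_of_nonneg_left hP1 (by positivity)
    have q4 : ‖β‖ ^ 2 * (2 * |(sp u v : ℝ)|) ≤ ‖β‖ ^ 2 * (sp v v : ℝ) :=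
      mul_le_mul_of_nonneg_left hP2 (by positivity)
    linarith
  have e7 := neg_abs_le (2 * (α * (starRingEnd ℂ) β).re * (sp u v : ℝ))
  rw [e1] at e3
  linarith

/-- a large minor of a reduced pair -/
theorem red_minor {n : ℕ} (u v : Fin (n + 1) → ℤ) (h : Red u v) :
    ∃ p q, (sp u u : ℝ) * sp v v ≤ (n + 1) ^ 2 * ((u p * v q - u q * v p : ℤ) : ℝ) ^ 2 := by
  obtain ⟨h1, h2, h3, h4⟩ := h
  have hN1 : (0 : ℝ) < (sp u u : ℝ) := by exact_mod_cast h1
  have hN2 : (0 : ℝ) < (sp v v : ℝ) := by exact_mod_cast h2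
  have hP1 : 2 * |(sp u v : ℝ)| ≤ (sp u u : ℝ) := by exact_mod_cast h3
  have hP2 : 2 * |(sp u v : ℝ)| ≤ (sp v v : ℝ) := by exact_mod_cast h4
  by_contra hcon
  push Not at hcon
  have e1 : ∑ p, ∑ q, ((u p * v q - u q * v p : ℤ) : ℝ) ^ 2 = 2 * ((sp u u : ℝ) * sp v v - (sp u v : ℝ) ^ 2) := by
    have e2 : ∀ p q, ((u p * v q - u q * v p : ℤ) : ℝ) ^ 2 = (u p * u p : ℝ) * (v q * v q) -
        2 * ((u p * v p) * (u q * v q)) + (u q * u q) * (v p * v p) := by
      intro p q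
      push_cast
      ring
    simp only [e2, Finset.sum_add_distrib, Finset.sum_sub_distrib]
    unfold sp
    push_cast
    have e3 : ∑ p : Fin (n + 1), ∑ q : Fin (n + 1), ((u p : ℝ) * u p) * ((v q : ℝ) * v q) =
        (∑ i, (u i : ℝ) * u i) * ∑ i, (v i : ℝ) * v i := by rw [Finset.sum_mul_sum]
    have e4 : ∑ p : Fin (n + 1), ∑ q : Fin (n + 1), 2 * (((u p : ℝ) * v p) * ((u q : ℝ) * v q)) =
        2 * (∑ i, (u i : ℝ) * v i) ^ 2 := by
      rw [sq, Finset.sum_mul_sum]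
      simp only [Finset.mul_sum]
    have e5 : ∑ p : Fin (n + 1), ∑ q : Fin (n + 1), ((u q : ℝ) * u q) * ((v p : ℝ) * v p) =
        (∑ i, (u i : ℝ) * u i) * ∑ i, (v i : ℝ) * v i := by
      rw [Finset.sum_comm, Finset.sum_mul_sum]
    rw [e3, e4, e5]
    ring
  have e6 : (n + 1 : ℝ) ^ 2 * ∑ p : Fin (n + 1), ∑ q : Fin (n + 1), ((u p * v q - u q * v p : ℤ) : ℝ) ^ 2 <
      (n + 1) ^ 2 * ((sp u u : ℝ) * sp v v) := by
    rw [Finset.mul_sum]
    have e7 : ∀ p : Fin (n + 1), (n + 1 : ℝ) ^ 2 * ∑ q : Fin (n + 1), ((u p * v q - u q * v p : ℤ) : ℝ) ^ 2 <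
        (n + 1) * ((sp u u : ℝ) * sp v v) := by
      intro p
      rw [Finset.mul_sum]
      calc ∑ q : Fin (n + 1), (n + 1 : ℝ) ^ 2 * ((u p * v q - u q * v p : ℤ) : ℝ) ^ 2 <
            ∑ q : Fin (n + 1), (sp u u : ℝ) * sp v v := Finset.sum_lt_sum_of_nonempty ⟨0, Finset.mem_univ _⟩
              fun q _ => hcon p q
        _ = _ := by
            rw [Finset.sum_const, Finset.card_univ, Fintype.card_fin, nsmul_eq_mul]
            push_cast
            ring
    calc ∑ p : Fin (n + 1), (n + 1 : ℝ) ^ 2 * ∑ q : Fin (n + 1), ((u p * v q - u q * v p : ℤ) : ℝ) ^ 2 <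
          ∑ p : Fin (n + 1), (n + 1) * ((sp u u : ℝ) * sp v v) := Finset.sum_lt_sum_of_nonempty ⟨0, Finset.mem_univ _⟩
            fun p _ => e7 p
      _ = _ := by
          rw [Finset.sum_const, Finset.card_univ, Fintype.card_fin, nsmul_eq_mul]
          push_cast
          ring
  rw [e1] at e6
  have hn : (0 : ℝ) < (n + 1) ^ 2 := by positivity
  have e8 : 2 * ((sp u u : ℝ) * sp v v - (sp u v : ℝ) ^ 2) < (sp u u : ℝ) * sp v v := lt_of_mul_lt_mul_left e6 hn.le
  have e9 : (2 * |(sp u v : ℝ)|) * (2 * |(sp u v : ℝ)|) ≤ (sp u u : ℝ) * sp v v :=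
    mul_le_mul hP1 hP2 (by positivity) hN1.le
  have e10 : (2 * |(sp u v : ℝ)|) * (2 * |(sp u v : ℝ)|) = 4 * (sp u v : ℝ) ^ 2 := by
    rw [← sq_abs (sp u v : ℝ)]
    ring
  have : 0 < (sp u u : ℝ) * sp v v := by positivity
  linarith

end Pool.Agent.D0H91.VM
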