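import Mathlib
import Pool.Agent.H813R3.Voj.Disc2
import Pool.Agent.D0H91.VM.Geo

/-! Embeddings, norms, discriminants. -/

set_option autoImplicit false

namespace Pool.Agent.D0H91.VM

open Finset NumberField
open Pool.Agent.H813R3.Voj (op op_pos oddPrimes dvd_discr_of_sq)

theorem norm_emb {L : Type*} [Field L] [NumberField L] (y : L) :
    ((Algebra.norm ℚ y : ℚ) : ℂ) = ∏ φ : L →+* ℂ, φ y := by
  have h := Algebra.norm_eq_prod_embeddings ℚ ℂ y
  rw [eq_ratCast] at h
  rw [h]
  exact Fintype.prod_equiv (RingHom.equivRatAlgHom L ℂ).symm _ _ (fun _ => rfl)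

theorem trace_emb {L : Type*} [Field L] [NumberField L] (y : L) :
    ((Algebra.trace ℚ L y : ℚ) : ℂ) = ∑ φ : L →+* ℂ, φ y := by
  have h := trace_eq_sum_embeddings (K := ℚ) ℂ (x := y)
  rw [eq_ratCast] at h
  rw [h]
  exact Fintype.sum_equiv (RingHom.equivRatAlgHom L ℂ).symm _ _ (fun _ => rfl)

/-- an element with equal conjugates is rational -/
theorem rat_of_eq {L : Type*} [Field L] [NumberField L] (φ₀ : L →+* ℂ) (y : L) (h : ∀ φ : L →+* ℂ, φ y = φ₀ y) :
    ∃ r : ℚ, y = (r : L) := by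
  have h1 := trace_emb y
  rw [Finset.sum_congr rfl fun φ _ => h φ, Finset.sum_const, Finset.card_univ, NumberField.Embeddings.card, nsmul_eq_mul] at h1
  have h2 : (0 : ℕ) < Module.finrank ℚ L := Module.finrank_pos
  have h3 : (Module.finrank ℚ L : ℂ) ≠ 0 := by
    exact_mod_cast h2.ne'
  refine ⟨Algebra.trace ℚ L y / Module.finrank ℚ L, ?_⟩
  apply φ₀.injective
  rw [map_ratCast]
  push_cast
  rw [h1]
  field_simp

theorem op_le_discr {L : Type*} [Field L] [NumberField L] (δ : L) (n : ℤ) (hn : n ≠ 0) (h : δ ^ 2 = (n : L)) :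
    (op n.natAbs : ℝ) ≤ |(NumberField.discr L : ℝ)| := by
  have key : ∀ p ∈ oddPrimes n, (p : ℤ) ∣ NumberField.discr L := by
    intro p hp
    unfold oddPrimes at hp
    rw [Finset.mem_filter] at hp
    have hp' := Nat.prime_of_mem_primeFactors hp.1
    obtain ⟨k, hk⟩ := hp.2
    have h0 : n.natAbs ≠ 0 := Int.natAbs_ne_zero.mpr hn
    have h1 : p ^ (2 * k + 1) ∣ n.natAbs := by
      rw [← hk]
      exact Nat.ordProj_dvd _ _
    obtain ⟨m, hm⟩ : ((p : ℤ)) ^ (2 * k + 1) ∣ n := by
      rw [← Int.natCast_pow]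
      exact Int.natCast_dvd.mpr h1
    have hpm : ¬ (p : ℤ) ∣ m := by
      rintro ⟨m', hm'⟩
      have h2 : p ^ (2 * k + 2) ∣ n.natAbs := by
        rw [← Int.natCast_dvd]
        push_cast
        exact ⟨m', by rw [hm, hm']; ring⟩
      have h3 := (hp'.pow_dvd_iff_le_factorization h0).mp h2
      omega
    have hp0 : (p : L) ≠ 0 := by exact_mod_cast hp'.ne_zero
    obtain ⟨z, hz⟩ : ∃ z : L, z = δ / (p : L) ^ k := ⟨_, rfl⟩
    have hz2 : z ^ 2 = (((p : ℤ) * m : ℤ) : L) := by
      rw [hz, div_pow, h, hm]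
      push_cast
      field_simp
      ring
    have hzint : IsIntegral ℤ z := by
      refine IsIntegral.of_pow (n := 2) (by norm_num) ?_
      rw [hz2]
      exact isIntegral_algebraMap (R := ℤ) (A := L) (x := (p : ℤ) * m)
    obtain ⟨w, hw⟩ : ∃ w : 𝓞 L, (w : L) = z := ⟨⟨z, hzint⟩, rfl⟩
    refine dvd_discr_of_sq hp' w m ?_ hpm
    apply RingOfIntegers.ext
    have h5 : ((w ^ 2 : 𝓞 L) : L) = (w : L) ^ 2 := by simp
    have h6 : ((((p : ℤ) * m : ℤ) : 𝓞 L) : L) = (((p : ℤ) * m : ℤ) : L) := by simp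
    exact (h5.trans (by rw [hw, hz2])).trans h6.symm
  have hd0 : NumberField.discr L ≠ 0 := NumberField.discr_ne_zero _
  have h1 : op n.natAbs ∣ (NumberField.discr L).natAbs := by
    have h0 : op n.natAbs = ∏ p ∈ oddPrimes n, p := rfl
    rw [h0]
    refine Finset.prod_primes_dvd _ ?_ ?_
    · intro p hp
      exact (Nat.prime_of_mem_primeFactors (Finset.mem_filter.mp hp).1).prime
    · intro p hp
      exact Int.natCast_dvd.mp (key p hp)
  have h2 := Nat.le_of_dvd (Int.natAbs_pos.mpr hd0) h1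
  have h3 : ((NumberField.discr L).natAbs : ℝ) = |(NumberField.discr L : ℝ)| := by
    rw [Nat.cast_natAbs]
    push_cast
    rfl
  rw [← h3]
  exact_mod_cast h2

/-- product over the infinite places as a product over the embeddings -/
theorem prod_emb {L : Type*} [Field L] [NumberField L] (f : InfinitePlace L → ℝ) :
    ∏ v : InfinitePlace L, f v ^ v.mult = ∏ φ : L →+* ℂ, f (InfinitePlace.mk φ) := by
  classical
  rw [← Finset.prod_fiberwise_of_maps_to (s := Finset.univ) (t := Finset.univ) (g := fun φ : L →+* ℂ => InfinitePlace.mk φ)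
    (fun _ _ => Finset.mem_univ _)]
  refine Finset.prod_congr rfl fun v _ => ?_
  rw [Finset.prod_congr rfl (g := fun _ => f v)]
  · rw [Finset.prod_const, InfinitePlace.card_filter_mk_eq]
  · intro φ hφ
    rw [Finset.mem_filter] at hφ
    rw [hφ.2]

/-- the sup norm of the vector of images -/
theorem iSup_emb {L : Type*} [Field L] [NumberField L] {n : ℕ} (x : Fin (n + 1) → L) (φ : L →+* ℂ) :
    ⨆ i, InfinitePlace.mk φ (x i) = ‖fun i => φ (x i)‖ := by
  apply le_antisymm
  · apply ciSup_le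
    intro i
    rw [InfinitePlace.apply]
    exact norm_le_pi_norm (fun i => φ (x i)) i
  · rw [pi_norm_le_iff_of_nonneg]
    · intro i
      refine le_trans (le_of_eq ?_) (le_ciSup (Set.finite_range _).bddAbove i)
      rw [InfinitePlace.apply]
    · refine le_trans (norm_nonneg (φ (x 0))) ?_
      refine le_trans (le_of_eq ?_) (le_ciSup (Set.finite_range _).bddAbove 0)
      rw [InfinitePlace.apply]

/-- the height of a tuple of integers -/
theorem height_int {L : Type*} [Field L] [NumberField L] {n : ℕ} (x : Fin (n + 1) → 𝓞 L) (hx : x ≠ 0) :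
    ((Ideal.span (Set.range x)).absNorm : ℝ) * Height.mulHeight (fun i => (x i : L)) =
      ∏ φ : L →+* ℂ, ‖fun i => φ (x i)‖ := by
  have hx' : (fun i => (x i : L)) ≠ 0 := by
    intro h
    apply hx
    funext i
    have := congrFun h i
    apply RingOfIntegers.ext
    exact this
  rw [NumberField.mulHeight_eq hx']
  have h1 := absNorm_mul_finprod_finitePlace_eq_one hx
  rw [prod_emb (fun v => ⨆ i, v (x i : L))]
  have h2 : ∏ φ : L →+* ℂ, (⨆ i, InfinitePlace.mk φ (x i : L)) = ∏ φ : L →+* ℂ, ‖fun i => φ (x i)‖ :=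
    Finset.prod_congr rfl fun φ _ => iSup_emb (fun i => (x i : L)) φ
  rw [h2]
  calc _ = (∏ φ : L →+* ℂ, ‖fun i => φ (x i)‖) * (((Ideal.span (Set.range x)).absNorm : ℝ) *
        ∏ᶠ v : FinitePlace L, ⨆ i, v (x i)) := by ring
    _ = _ := by rw [h1, mul_one]

end Pool.Agent.D0H91.VM
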