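import Mathlib
import Pool.Agent.D0H91.VM.Alg1

/-! A reduced pair for an irrational quadratic point. -/

set_option autoImplicit false

namespace Pool.Agent.D0H91.VM

open Finset NumberField

theorem vmul {L : Type*} [Field L] [NumberField L] (a b : 𝓞 L) : ((a * b : 𝓞 L) : L) = a * b :=
  map_mul (algebraMap (𝓞 L) L) a b

theorem vadd {L : Type*} [Field L] [NumberField L] (a b : 𝓞 L) : ((a + b : 𝓞 L) : L) = a + b :=
  map_add (algebraMap (𝓞 L) L) a b

theorem vint {L : Type*} [Field L] [NumberField L] (k : ℤ) : ((k : 𝓞 L) : L) = k :=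
  map_intCast (algebraMap (𝓞 L) L) k

theorem sp_nonneg {n : ℕ} (u : Fin (n + 1) → ℤ) : 0 ≤ sp u u := by
  unfold sp
  exact Finset.sum_nonneg fun i _ => mul_self_nonneg (u i)

theorem sp_eq_zero {n : ℕ} (u : Fin (n + 1) → ℤ) (h : sp u u = 0) : ∀ i, u i = 0 := by
  unfold sp at h
  rw [Finset.sum_eq_zero_iff_of_nonneg (fun i _ => mul_self_nonneg (u i))] at h
  intro i
  exact mul_self_eq_zero.1 (h i (Finset.mem_univ i))

theorem sp_comm {n : ℕ} (u v : Fin (n + 1) → ℤ) : sp u v = sp v u := by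
  unfold sp
  exact Finset.sum_congr rfl fun i _ => mul_comm _ _

theorem sp_add {n : ℕ} (u v : Fin (n + 1) → ℤ) (k : ℤ) :
    sp (fun i => u i + k * v i) (fun i => u i + k * v i) = sp u u + 2 * k * sp u v + k ^ 2 * sp v v := by
  unfold sp
  rw [Finset.mul_sum, Finset.mul_sum, ← Finset.sum_add_distrib, ← Finset.sum_add_distrib]
  exact Finset.sum_congr rfl fun i _ => by ring

theorem exists_red {L : Type*} [Field L] [NumberField L] (h2 : Module.finrank ℚ L = 2) {n : ℕ}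
    (x : Fin (n + 1) → 𝓞 L) (hx : ∀ (l : L) (w : Fin (n + 1) → ℤ), ¬ ∀ i, (x i : L) = l * w i) :
    ∃ (ξ₁ ξ₂ : 𝓞 L) (u v : Fin (n + 1) → ℤ), ξ₁ ∈ Ideal.span (Set.range x) ∧ ξ₂ ∈ Ideal.span (Set.range x) ∧
      Red u v ∧ ∀ i, x i = u i * ξ₁ + v i * ξ₂ := by
  classical
  obtain ⟨I, hI⟩ : ∃ I, I = Ideal.span (Set.range x) := ⟨_, rfl⟩
  rw [← hI]
  have hxI : ∀ i, x i ∈ I := by
    intro i
    rw [hI]
    exact Ideal.subset_span ⟨i, rfl⟩
  have hI0 : I ≠ ⊥ := by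
    intro h
    apply hx 0 0
    intro i
    have := hxI i
    rw [h, Ideal.mem_bot] at this
    rw [this]
    simp
  have hr : Module.finrank ℤ (𝓞 L) = 2 := by
    rw [RingOfIntegers.rank, h2]
  have bas := Ideal.selfBasis (Module.finBasisOfFinrankEq ℤ (𝓞 L) hr) I hI0
  have hP : ∃ m : ℕ, ∃ (ξ₁ ξ₂ : 𝓞 L) (u v : Fin (n + 1) → ℤ), ξ₁ ∈ I ∧ ξ₂ ∈ I ∧ (∀ i, x i = u i * ξ₁ + v i * ξ₂) ∧
      sp u u + sp v v = (m : ℤ) := by
    refine ⟨(sp (fun i => bas.repr ⟨x i, hxI i⟩ 0) (fun i => bas.repr ⟨x i, hxI i⟩ 0) +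
      sp (fun i => bas.repr ⟨x i, hxI i⟩ 1) (fun i => bas.repr ⟨x i, hxI i⟩ 1)).toNat, bas 0, bas 1,
      fun i => bas.repr ⟨x i, hxI i⟩ 0, fun i => bas.repr ⟨x i, hxI i⟩ 1, (bas 0).2, (bas 1).2, ?_, ?_⟩
    · intro i
      have h3 := bas.sum_repr ⟨x i, hxI i⟩
      rw [Fin.sum_univ_two] at h3
      have h4 := congrArg (fun y : I => (y : 𝓞 L)) h3
      have k : ∀ (z : ℤ) (b : I), ((z • b : I) : 𝓞 L) = z * b := by
        intro z b
        have k1 : ((z • b : I) : 𝓞 L) = z • (b : 𝓞 L) := rfl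
        rw [k1, zsmul_eq_mul]
      simp only [Submodule.coe_add] at h4
      rw [k, k] at h4
      exact h4.symm
    · rw [Int.toNat_of_nonneg (add_nonneg (sp_nonneg _) (sp_nonneg _))]
  obtain ⟨ξ₁, ξ₂, u, v, h1, h2', h3, h4⟩ := Nat.find_spec hP
  have hmin : ∀ (ξ₁' ξ₂' : 𝓞 L) (u' v' : Fin (n + 1) → ℤ), ξ₁' ∈ I → ξ₂' ∈ I → (∀ i, x i = u' i * ξ₁' + v' i * ξ₂') →
      sp u u + sp v v ≤ sp u' u' + sp v' v' := by
    intro ξ₁' ξ₂' u' v' k1 k2 k3
    have k4 : Nat.find hP ≤ (sp u' u' + sp v' v').toNat := by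
      apply Nat.find_min' hP
      exact ⟨ξ₁', ξ₂', u', v', k1, k2, k3, by rw [Int.toNat_of_nonneg (add_nonneg (sp_nonneg _) (sp_nonneg _))]⟩
    rw [h4]
    have k5 := Int.toNat_of_nonneg (add_nonneg (sp_nonneg u') (sp_nonneg v'))
    rw [← k5]
    exact_mod_cast k4
  have hup : 0 < sp u u := by
    rcases eq_or_lt_of_le (sp_nonneg u) with h | h
    · exfalso
      apply hx ξ₂ v
      intro i
      have h5 := sp_eq_zero u h.symm i
      have h6 := h3 i
      rw [h5, Int.cast_zero, zero_mul, zero_add] at h6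
      rw [h6, vmul, vint, mul_comm]
    · exact h
  have hvp : 0 < sp v v := by
    rcases eq_or_lt_of_le (sp_nonneg v) with h | h
    · exfalso
      apply hx ξ₁ u
      intro i
      have h5 := sp_eq_zero v h.symm i
      have h6 := h3 i
      rw [h5, Int.cast_zero, zero_mul, add_zero] at h6
      rw [h6, vmul, vint, mul_comm]
    · exact h
  have hA : ∀ k : ℤ, 0 ≤ 2 * k * sp u v + k ^ 2 * sp v v := by
    intro k
    have h5 := hmin ξ₁ (ξ₂ - k * ξ₁) (fun i => u i + k * v i) v h1 (I.sub_mem h2' (I.mul_mem_left _ h1)) (by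
      intro i
      rw [h3 i]
      push_cast
      ring)
    rw [sp_add] at h5
    linarith
  have hB : ∀ k : ℤ, 0 ≤ 2 * k * sp v u + k ^ 2 * sp u u := by
    intro k
    have h5 := hmin (ξ₁ - k * ξ₂) ξ₂ u (fun i => v i + k * u i) (I.sub_mem h1 (I.mul_mem_left _ h2')) h2' (by
      intro i
      rw [h3 i]
      push_cast
      ring)
    rw [sp_add] at h5
    linarith
  refine ⟨ξ₁, ξ₂, u, v, h1, h2', ⟨hup, hvp, ?_, ?_⟩, h3⟩
  · have a1 := hB 1
    have a2 := hB (-1)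
    rw [sp_comm v u] at a1 a2
    rcases abs_cases (sp u v) with h | h <;> linarith [h.1]
  · have a1 := hA 1
    have a2 := hA (-1)
    rcases abs_cases (sp u v) with h | h <;> linarith [h.1]

end Pool.Agent.D0H91.VM
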