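import Mathlib
import Pool.Agent.H813R3.Voj.Sf
import Pool.Agent.H358R2.Asym

/-! Convergent sums. -/

set_option autoImplicit false

namespace Pool.Agent.D0H91.VM

open Finset Filter
open scoped ENNReal
open Pool.Agent.H813R3.Voj (op op_pos exists_sq)

theorem tsum_ofReal_lt {ι : Type*} {f : ι → ℝ} (hf : ∀ i, 0 ≤ f i) (hs : Summable f) :
    ∑' i, ENNReal.ofReal (f i) < ⊤ := by
  rw [← ENNReal.ofReal_tsum_of_nonneg hf hs]
  exact ENNReal.ofReal_lt_top

/-- the vector as a real vector -/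
def rv {m : ℕ} (w : Fin m → ℤ) : Fin m → ℝ := fun i => (w i : ℝ)

theorem sum_vec (m : ℕ) (p : ℝ) (hp : (m : ℝ) < p) :
    ∑' w : Fin m → ℤ, ENNReal.ofReal (‖rv w‖ ^ (-p)) < ⊤ := by
  apply tsum_ofReal_lt fun _ => by positivity
  have hrank : Module.finrank ℤ (Submodule.span ℤ (Set.range (Pi.basisFun ℝ (Fin m)))) = m := by
    rw [ZLattice.rank ℝ, Module.finrank_pi, Fintype.card_fin]
  have h1 := ZLattice.summable_norm_rpow (Submodule.span ℤ (Set.range (Pi.basisFun ℝ (Fin m)))) (-p) (by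
    rw [hrank]
    linarith)
  have hmem : ∀ w : Fin m → ℤ, rv w ∈ Submodule.span ℤ (Set.range (Pi.basisFun ℝ (Fin m))) := by
    intro w
    rw [Module.Basis.mem_span_iff_repr_mem]
    intro i
    rw [Pi.basisFun_repr]
    exact ⟨w i, rfl⟩
  obtain ⟨φ, hφ⟩ : ∃ φ : (Fin m → ℤ) → Submodule.span ℤ (Set.range (Pi.basisFun ℝ (Fin m))),
      ∀ w, (φ w : Fin m → ℝ) = rv w := ⟨fun w => ⟨rv w, hmem w⟩, fun w => rfl⟩
  have hinj : Function.Injective φ := by
    intro w w' h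
    have h2 : rv w = rv w' := by rw [← hφ, ← hφ, h]
    funext i
    have := congrFun h2 i
    unfold rv at this
    exact_mod_cast this
  have h2 := h1.comp_injective hinj
  refine h2.congr fun w => ?_
  rw [← hφ w]
  rfl

theorem tsum_prod_mul {α β : Type*} (f : α → ℝ≥0∞) (g : β → ℝ≥0∞) :
    ∑' x : α × β, f x.1 * g x.2 = (∑' a, f a) * ∑' b, g b := by
  rw [ENNReal.tsum_prod']
  rw [← ENNReal.tsum_mul_right]
  apply tsum_congr
  intro a
  show ∑' b, f a * g b = _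
  rw [ENNReal.tsum_mul_left]

theorem sum_int (θ : ℝ) (hθ : 0 < θ) :
    ∑' b : ℤ, ENNReal.ofReal (((b : ℝ) ^ 2 + 1) ^ (-(1 / 2) - θ)) < ⊤ := by
  have h1 : ∀ b : ℤ, ENNReal.ofReal (((b : ℝ) ^ 2 + 1) ^ (-(1 / 2) - θ)) ≤
      ENNReal.ofReal (|(b : ℝ)| ^ (-(1 + 2 * θ))) + (if b = 0 then 1 else 0) := by
    intro b
    by_cases hb : b = 0
    · rw [if_pos hb]
      apply le_add_left
      rw [← ENNReal.ofReal_one]
      apply ENNReal.ofReal_le_ofReal
      rw [hb]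
      norm_num
    · rw [if_neg hb, add_zero]
      apply ENNReal.ofReal_le_ofReal
      have hb0 : (0 : ℝ) < |(b : ℝ)| := abs_pos.2 (by exact_mod_cast hb)
      have e1 : |(b : ℝ)| ^ (-(1 + 2 * θ)) = ((b : ℝ) ^ 2) ^ (-(1 / 2) - θ) := by
        rw [← sq_abs, ← Real.rpow_natCast, ← Real.rpow_mul hb0.le]
        congr 1
        push_cast
        ring
      rw [e1]
      apply Real.rpow_le_rpow_of_nonpos (by positivity)
      · linarith
      · linarith
  refine (ENNReal.tsum_le_tsum h1).trans_lt ?_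
  rw [ENNReal.tsum_add]
  apply ENNReal.add_lt_top.2
  constructor
  · exact tsum_ofReal_lt (fun _ => by positivity) (Real.summable_abs_int_rpow (by linarith))
  · rw [tsum_ite_eq]
    exact ENNReal.one_lt_top

/-- the square root of the square part -/
noncomputable def rr (k : ℕ) : ℕ := if h : k ≠ 0 then (exists_sq k h).choose else 0

theorem rr_spec {k : ℕ} (h : k ≠ 0) : k = op k * rr k ^ 2 := by
  unfold rr
  rw [dif_pos h]
  exact (exists_sq k h).choose_spec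

theorem rr_pos {k : ℕ} (h : k ≠ 0) : 0 < rr k := by
  rcases Nat.eq_zero_or_pos (rr k) with h0 | h0
  · exfalso
    have := rr_spec h
    rw [h0] at this
    simp at this
    exact h this
  · exact h0

theorem sum_disc (θ : ℝ) (hθ : 0 < θ) :
    ∑' D : ℤ, (if D = 0 then 0 else
      ENNReal.ofReal ((op D.natAbs : ℝ) ^ (-(3 / 2) : ℝ) * (rr D.natAbs : ℝ) ^ (-(1 + θ)))) < ⊤ := by
  obtain ⟨g, hg⟩ : ∃ g : ℤ × ℕ × ℕ → ℝ≥0∞, g = fun x => (if x.1 = 1 ∨ x.1 = -1 then 1 else 0) *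
    (ENNReal.ofReal ((x.2.1 : ℝ) ^ (-(3 / 2) : ℝ)) * ENNReal.ofReal ((x.2.2 : ℝ) ^ (-(1 + θ)))) := ⟨_, rfl⟩
  obtain ⟨f, hf⟩ : ∃ f : ℤ → ℤ × ℕ × ℕ, f = fun D => (D.sign, op D.natAbs, rr D.natAbs) := ⟨_, rfl⟩
  have h1 : ∀ D : ℤ, (if D = 0 then 0 else
      ENNReal.ofReal ((op D.natAbs : ℝ) ^ (-(3 / 2) : ℝ) * (rr D.natAbs : ℝ) ^ (-(1 + θ)))) ≤
      if D = 0 then 0 else g (f D) := by
    intro D
    split_ifs with h
    · exact le_rfl
    · rw [hg, hf]
      simp only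
      have : D.sign = 1 ∨ D.sign = -1 := by
        rcases lt_or_gt_of_ne h with h2 | h2
        · right
          exact Int.sign_eq_neg_one_of_neg h2
        · left
          exact Int.sign_eq_one_of_pos h2
      rw [if_pos this, one_mul, ← ENNReal.ofReal_mul (by positivity)]
  refine (ENNReal.tsum_le_tsum h1).trans_lt ?_
  have h2 : ∑' D : ℤ, (if D = 0 then 0 else g (f D)) = ∑' D : ({D : ℤ | D ≠ 0} : Set ℤ), g (f D) := by
    rw [tsum_subtype ({D : ℤ | D ≠ 0} : Set ℤ) (fun D => g (f D))]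
    apply tsum_congr
    intro D
    by_cases h : D = 0
    · rw [if_pos h, Set.indicator_of_notMem (by exact fun hc => hc h)]
    · rw [if_neg h, Set.indicator_of_mem (by exact h)]
  rw [h2]
  have hinj : Function.Injective (fun D : ({D : ℤ | D ≠ 0} : Set ℤ) => f D) := by
    rintro ⟨D, hD⟩ ⟨E, hE⟩ h
    simp only [hf, Prod.mk.injEq] at h
    obtain ⟨h3, h4, h5⟩ := h
    have h6 : D.natAbs = E.natAbs := by
      rw [rr_spec (Int.natAbs_ne_zero.2 hD), rr_spec (Int.natAbs_ne_zero.2 hE), h4, h5]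
    apply Subtype.ext
    change D = E
    rw [← Int.sign_mul_natAbs D, ← Int.sign_mul_natAbs E, h3, h6]
  refine (ENNReal.tsum_comp_le_tsum_of_injective hinj g).trans_lt ?_
  have e1 : ∑' x : ℤ × ℕ × ℕ, g x = (∑' x : ℤ, (if x = 1 ∨ x = -1 then (1 : ℝ≥0∞) else 0)) *
      ((∑' t : ℕ, ENNReal.ofReal ((t : ℝ) ^ (-(3 / 2) : ℝ))) * ∑' r : ℕ, ENNReal.ofReal ((r : ℝ) ^ (-(1 + θ)))) := by
    rw [← tsum_prod_mul (fun t : ℕ => ENNReal.ofReal ((t : ℝ) ^ (-(3 / 2) : ℝ))), ← tsum_prod_mul, hg]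
  rw [e1]
  apply ENNReal.mul_lt_top
  · have h3 : ∀ x : ℤ, (if x = 1 ∨ x = -1 then (1 : ℝ≥0∞) else 0) ≤ (if x = 1 then 1 else 0) + (if x = -1 then 1 else 0) := by
      intro x
      by_cases h : x = 1
      · simp [h]
      · by_cases h' : x = -1
        · simp [h']
        · simp [h, h']
    refine (ENNReal.tsum_le_tsum h3).trans_lt ?_
    rw [ENNReal.tsum_add, tsum_ite_eq, tsum_ite_eq]
    exact ENNReal.add_lt_top.2 ⟨ENNReal.one_lt_top, ENNReal.one_lt_top⟩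
  · apply ENNReal.mul_lt_top
    · exact tsum_ofReal_lt (fun _ => by positivity) (Real.summable_nat_rpow.2 (by norm_num))
    · exact tsum_ofReal_lt (fun _ => by positivity) (Real.summable_nat_rpow.2 (by linarith))

/-- the number of integer divisors -/
theorem tsum_dvd (k : ℤ) (hk : k ≠ 0) (x : ℝ≥0∞) :
    ∑' a : ℤ, (if a ∣ k then x else 0) ≤ (2 * (k.natAbs.divisors.card : ℝ≥0∞)) * x := by
  classical
  obtain ⟨S, hS⟩ : ∃ S : Finset ℤ, S = k.natAbs.divisors.image (fun d : ℕ => (d : ℤ)) ∪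
    k.natAbs.divisors.image (fun d : ℕ => -(d : ℤ)) := ⟨_, rfl⟩
  have h1 : ∀ a ∉ S, (if a ∣ k then x else 0) = 0 := by
    intro a ha
    rw [if_neg]
    intro hak
    apply ha
    have h2 : a.natAbs ∈ k.natAbs.divisors := by
      rw [Nat.mem_divisors]
      exact ⟨Int.natAbs_dvd_natAbs.2 hak, Int.natAbs_ne_zero.2 hk⟩
    rw [hS, Finset.mem_union, Finset.mem_image, Finset.mem_image]
    rcases Int.natAbs_eq a with h3 | h3
    · left
      exact ⟨a.natAbs, h2, h3.symm⟩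
    · right
      exact ⟨a.natAbs, h2, h3.symm⟩
  rw [tsum_eq_sum h1]
  calc ∑ a ∈ S, (if a ∣ k then x else 0) ≤ ∑ a ∈ S, x := Finset.sum_le_sum fun a _ => by
        split_ifs
        · exact le_rfl
        · exact bot_le
    _ = S.card * x := by rw [Finset.sum_const, nsmul_eq_mul]
    _ ≤ _ := by
        apply mul_le_mul_left
        have h3 : S.card ≤ 2 * k.natAbs.divisors.card := by
          rw [hS, two_mul]
          exact (Finset.card_union_le _ _).trans (add_le_add Finset.card_image_le Finset.card_image_le)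
        exact_mod_cast h3

/-- grouping the pairs `(a, c)` by their product -/
theorem sum_pairs (G : ℤ → ℝ≥0∞) :
    ∑' a : ℤ, ∑' c : ℤ, (if a ≠ 0 ∧ c ≠ 0 then G (a * c) else 0) ≤
      ∑' k : ℤ, (if k = 0 then 0 else 2 * (k.natAbs.divisors.card : ℝ≥0∞) * G k) := by
  have h1 : ∀ a : ℤ, ∑' c : ℤ, (if a ≠ 0 ∧ c ≠ 0 then G (a * c) else 0) ≤
      ∑' k : ℤ, (if a ∣ k then (if k = 0 then 0 else G k) else 0) := by
    intro a
    by_cases ha : a = 0
    · simp [ha]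
    · have hinj : Function.Injective (fun c : ℤ => a * c) := mul_right_injective₀ ha
      refine le_trans ?_ (ENNReal.tsum_comp_le_tsum_of_injective hinj _)
      apply ENNReal.tsum_le_tsum
      intro c
      rw [if_pos (dvd_mul_right a c)]
      by_cases hc : c = 0
      · simp [hc]
      · rw [if_pos ⟨ha, hc⟩, if_neg (mul_ne_zero ha hc)]
  refine (ENNReal.tsum_le_tsum h1).trans ?_
  rw [ENNReal.tsum_comm]
  apply ENNReal.tsum_le_tsum
  intro k
  by_cases hk : k = 0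
  · simp [hk]
  · rw [if_neg hk, if_neg hk]
    exact tsum_dvd k hk _

/-- the divisor bound -/
theorem div_bound (κ : ℝ) (hκ : 0 < κ) : ∃ C : ℝ, 0 < C ∧ ∀ k : ℤ, k ≠ 0 → ∀ x : ℝ, |(k : ℝ)| ≤ x →
    2 * (k.natAbs.divisors.card : ℝ) ≤ C * x ^ κ := by
  obtain ⟨K, hK⟩ := exists_nat_gt (1 / κ)
  have hK0 : (0 : ℝ) < K := lt_trans (by positivity) hK
  have hK1 : 0 < K := by exact_mod_cast hK0
  obtain ⟨B, hB⟩ : ∃ B : ℝ, B = (((K ^ K * 2) ^ (2 ^ K) : ℕ) : ℝ) := ⟨_, rfl⟩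
  have hB0 : 0 ≤ B := by
    rw [hB]
    exact Nat.cast_nonneg _
  refine ⟨2 * B ^ (1 / (K : ℝ)) + 1, by positivity, fun k hk x hx => ?_⟩
  obtain ⟨d, hd⟩ : ∃ d : ℝ, d = (k.natAbs.divisors.card : ℝ) := ⟨_, rfl⟩
  have hd0 : 0 ≤ d := by
    rw [hd]
    exact Nat.cast_nonneg _
  have h1 := Pool.Agent.H358R2.card_divisors_pow_le K hK1 k.natAbs (Int.natAbs_ne_zero.2 hk)
  have h2 : d ^ K ≤ B * (k.natAbs : ℝ) := by
    have h7 := (Nat.cast_le (α := ℝ)).2 h1
    rw [Nat.cast_pow, Nat.cast_mul, ← hB, ← hd] at h7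
    exact h7
  rw [← hd]
  have h3 : (k.natAbs : ℝ) ≤ x := by
    rw [Nat.cast_natAbs, Int.cast_abs]
    exact hx
  have h4 : (1 : ℝ) ≤ x := by
    refine le_trans ?_ h3
    have : 1 ≤ k.natAbs := Nat.one_le_iff_ne_zero.2 (Int.natAbs_ne_zero.2 hk)
    exact_mod_cast this
  have h5 : d ≤ (B * x) ^ (1 / (K : ℝ)) := by
    have e1 : d = (d ^ K) ^ (1 / (K : ℝ)) := by
      rw [← Real.rpow_natCast, ← Real.rpow_mul hd0, mul_one_div, div_self hK0.ne', Real.rpow_one]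
    rw [e1]
    apply Real.rpow_le_rpow (by positivity) _ (by positivity)
    exact h2.trans (mul_le_mul_of_nonneg_left h3 hB0)
  rw [Real.mul_rpow hB0 (by linarith)] at h5
  have h6 : x ^ (1 / (K : ℝ)) ≤ x ^ κ := by
    apply Real.rpow_le_rpow_of_exponent_le h4
    rw [div_le_iff₀ hK0]
    rw [div_lt_iff₀ hκ] at hK
    linarith
  have h7 : 0 ≤ x ^ κ := by positivity
  calc 2 * d ≤ 2 * (B ^ (1 / (K : ℝ)) * x ^ (1 / (K : ℝ))) := by linarith
    _ ≤ 2 * (B ^ (1 / (K : ℝ)) * x ^ κ) := by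
        apply mul_le_mul_of_nonneg_left _ (by norm_num)
        exact mul_le_mul_of_nonneg_left h6 (by positivity)
    _ ≤ _ := by
        rw [add_mul, one_mul]
        linarith

end Pool.Agent.D0H91.VM
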