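import Mathlib
import Pool.Agent.D0H91.VM.Geo
import Pool.Agent.D0H91.VM.Sums

/-! The bad sets of coefficient vectors and their measure. -/

set_option autoImplicit false

namespace Pool.Agent.D0H91.VM

open Finset MeasureTheory
open scoped ENNReal
open Pool.Agent.H813R3.Voj (op op_pos)

/-- the two conjugate vectors -/
noncomputable def YY {n : ℕ} (σ : ℂ) (u v : Fin (n + 1) → ℤ) (a b : ℤ) : Fin (n + 1) → ℂ :=
  cb (2 * a) (b + σ) u v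

/-- the height -/
noncomputable def MM {n : ℕ} (σ : ℂ) (u v : Fin (n + 1) → ℤ) (a b : ℤ) : ℝ :=
  ‖YY σ u v a b‖ * ‖YY (-σ) u v a b‖ / (4 * |(a : ℝ)|)

theorem geo1 {n : ℕ} (σ : ℂ) (u v : Fin (n + 1) → ℤ) (a b : ℤ) (ha : a ≠ 0) (h : Red u v) :
    ((sp u u : ℝ) * sp v v) * ((b : ℝ) ^ 2 + ‖σ‖ ^ 2) ≤ 8 * (n + 1) ^ 2 * MM σ u v a b ^ 2 := by
  have h1 := cb_sq (2 * a) (b + σ) u v h
  have h2 := cb_sq (2 * a) (b + -σ) u v h
  have ha0 : (0 : ℝ) < |(a : ℝ)| := abs_pos.2 (by exact_mod_cast ha)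
  have hN1 : (0 : ℝ) < (sp u u : ℝ) := by exact_mod_cast h.1
  have hN2 : (0 : ℝ) < (sp v v : ℝ) := by exact_mod_cast h.2.1
  have e1 : ‖(2 * a : ℂ)‖ ^ 2 = 4 * |(a : ℝ)| ^ 2 := by
    rw [norm_mul, mul_pow, Complex.norm_intCast, Complex.norm_ofNat]
    norm_num
  have e2 : ‖(b + σ : ℂ)‖ ^ 2 + ‖(b + -σ : ℂ)‖ ^ 2 = 2 * ((b : ℝ) ^ 2 + ‖σ‖ ^ 2) := by
    rw [← Complex.normSq_eq_norm_sq, ← Complex.normSq_eq_norm_sq, ← Complex.normSq_eq_norm_sq,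
      Complex.normSq_apply, Complex.normSq_apply, Complex.normSq_apply]
    simp only [Complex.add_re, Complex.add_im, Complex.neg_re, Complex.neg_im, Complex.intCast_re,
        Complex.intCast_im]
    ring
  rw [e1] at h1 h2
  obtain ⟨P, hP⟩ : ∃ P, P = ‖YY σ u v a b‖ := ⟨_, rfl⟩
  obtain ⟨Q, hQ⟩ : ∃ Q, Q = ‖YY (-σ) u v a b‖ := ⟨_, rfl⟩
  have hP' : ‖cb (2 * a) (b + σ) u v‖ = P := hP.symm
  have hQ' : ‖cb (2 * a) (b + -σ) u v‖ = Q := hQ.symm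
  have hM : MM σ u v a b = P * Q / (4 * |(a : ℝ)|) := by rw [hP, hQ]; rfl
  rw [hP'] at h1
  rw [hQ'] at h2
  rw [hM]
  obtain ⟨x, hx⟩ : ∃ x, x = ‖(b + σ : ℂ)‖ ^ 2 := ⟨_, rfl⟩
  obtain ⟨y, hy⟩ : ∃ y, y = ‖(b + -σ : ℂ)‖ ^ 2 := ⟨_, rfl⟩
  rw [← hx] at h1 e2
  rw [← hy] at h2 e2
  have hx0 : 0 ≤ x := by rw [hx]; positivity
  have hy0 : 0 ≤ y := by rw [hy]; positivity
  obtain ⟨α, hα⟩ : ∃ α, α = |(a : ℝ)| := ⟨_, rfl⟩
  rw [← hα] at h1 h2 ha0 ⊢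
  have h3 := mul_le_mul h1 h2 (by positivity) (by positivity)
  have h4 : (b : ℝ) ^ 2 + ‖σ‖ ^ 2 = (x + y) / 2 := by linarith
  rw [h4]
  have h5 : 4 * α ^ 2 * ((sp u u : ℝ) * sp v v * (x + y)) ≤
      (4 * α ^ 2 * (sp u u : ℝ) + x * sp v v) * (4 * α ^ 2 * (sp u u : ℝ) + y * sp v v) := by
    have : (4 * α ^ 2 * (sp u u : ℝ) + x * sp v v) * (4 * α ^ 2 * (sp u u : ℝ) + y * sp v v) =
      4 * α ^ 2 * ((sp u u : ℝ) * sp v v * (x + y)) + ((4 * α ^ 2 * (sp u u : ℝ)) ^ 2 + x * y * (sp v v : ℝ) ^ 2) := by ring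
    rw [this]
    have h6 : 0 ≤ (4 * α ^ 2 * (sp u u : ℝ)) ^ 2 + x * y * (sp v v : ℝ) ^ 2 := by positivity
    linarith
  have h7 := h5.trans h3
  have h8 : 8 * ((n : ℝ) + 1) ^ 2 * (P * Q / (4 * α)) ^ 2 = ((n : ℝ) + 1) ^ 2 * P ^ 2 * Q ^ 2 / (2 * α ^ 2) := by
    field_simp
    ring
  rw [h8, le_div_iff₀ (by positivity)]
  nlinarith [h7]

/-- the minors of the two Veronese vectors -/
theorem geo2 {n e : ℕ} (σ : ℂ) (u v : Fin (n + 1) → ℤ) (a b : ℤ) (ha : a ≠ 0) (hσ : σ ≠ 0) (h : Red u v) :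
    ∃ s s' : Sym (Fin (n + 1)) (e + 1), 0 < ‖mon (YY σ u v a b) s' * mon (YY (-σ) u v a b) s -
        mon (YY (-σ) u v a b) s' * mon (YY σ u v a b) s‖ ∧
      (‖YY σ u v a b‖ * ‖YY (-σ) u v a b‖) ^ e * (4 * |(a : ℝ)| * (‖σ‖ * Real.sqrt ((sp u u : ℝ) * sp v v))) ≤
      2 ^ (e + 2) * (n + 1) * ‖mon (YY σ u v a b) s' * mon (YY (-σ) u v a b) s -
        mon (YY (-σ) u v a b) s' * mon (YY σ u v a b) s‖ := by
  obtain ⟨p, q, hpq⟩ := red_minor u v h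
  obtain ⟨s, s', hs⟩ := veronese (e := e) (YY σ u v a b) (YY (-σ) u v a b) p q
  have hN1 : (0 : ℝ) < (sp u u : ℝ) := by exact_mod_cast h.1
  have hN2 : (0 : ℝ) < (sp v v : ℝ) := by exact_mod_cast h.2.1
  have ha0 : (0 : ℝ) < |(a : ℝ)| := abs_pos.2 (by exact_mod_cast ha)
  have hσ0 : 0 < ‖σ‖ := norm_pos_iff.2 hσ
  have hW : ‖YY σ u v a b p * YY (-σ) u v a b q - YY σ u v a b q * YY (-σ) u v a b p‖ =
      4 * |(a : ℝ)| * (‖σ‖ * |((u p * v q - u q * v p : ℤ) : ℝ)|) := by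
    have e1 : YY σ u v a b p * YY (-σ) u v a b q - YY σ u v a b q * YY (-σ) u v a b p =
        (-4) * (a : ℂ) * (σ * ((u p * v q - u q * v p : ℤ) : ℂ)) := by
      unfold YY cb
      push_cast
      ring
    rw [e1, norm_mul, norm_mul, norm_mul, Complex.norm_intCast, Complex.norm_intCast, norm_neg, Complex.norm_ofNat]
  have hsq : Real.sqrt ((sp u u : ℝ) * sp v v) ≤ (n + 1) * |((u p * v q - u q * v p : ℤ) : ℝ)| := by
    apply Real.sqrt_le_iff.2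
    refine ⟨by positivity, ?_⟩
    rw [mul_pow, sq_abs]
    exact hpq
  have hPQ0 : 0 < ‖YY σ u v a b‖ * ‖YY (-σ) u v a b‖ := by
    have h1 := geo1 σ u v a b ha h
    have h2 : 0 < ((sp u u : ℝ) * sp v v) * ((b : ℝ) ^ 2 + ‖σ‖ ^ 2) := by positivity
    have h3 : 0 < MM σ u v a b ^ 2 := by
      by_contra hc
      push Not at hc
      have h4 : 8 * ((n : ℝ) + 1) ^ 2 * MM σ u v a b ^ 2 ≤ 0 := mul_nonpos_of_nonneg_of_nonpos (by positivity) hc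
      linarith
    have h4 : MM σ u v a b ≠ 0 := by
      intro h5
      rw [h5] at h3
      norm_num at h3
    have h5 : 0 ≤ ‖YY σ u v a b‖ * ‖YY (-σ) u v a b‖ := by positivity
    rcases eq_or_lt_of_le h5 with h6 | h6
    · exfalso
      apply h4
      unfold MM
      rw [← h6, zero_div]
    · exact h6
  obtain ⟨R, hR⟩ : ∃ R, R = ‖mon (YY σ u v a b) s' * mon (YY (-σ) u v a b) s -
        mon (YY (-σ) u v a b) s' * mon (YY σ u v a b) s‖ := ⟨_, rfl⟩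
  refine ⟨s, s', ?_⟩
  rw [← hR] at hs ⊢
  rw [hW] at hs
  obtain ⟨T, hT⟩ : ∃ T, T = ‖YY σ u v a b‖ * ‖YY (-σ) u v a b‖ := ⟨_, rfl⟩
  rw [← hT] at hs hPQ0 ⊢
  have hfin : T ^ e * (4 * |(a : ℝ)| * (‖σ‖ * Real.sqrt ((sp u u : ℝ) * sp v v))) ≤ 2 ^ (e + 2) * (n + 1) * R := by
    calc T ^ e * (4 * |(a : ℝ)| * (‖σ‖ * Real.sqrt ((sp u u : ℝ) * sp v v))) ≤
        T ^ e * (4 * |(a : ℝ)| * (‖σ‖ * ((n + 1) * |((u p * v q - u q * v p : ℤ) : ℝ)|))) := by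
          apply mul_le_mul_of_nonneg_left _ (by positivity)
          apply mul_le_mul_of_nonneg_left _ (by positivity)
          exact mul_le_mul_of_nonneg_left hsq (by positivity)
      _ = (n + 1) * (T ^ e * (4 * |(a : ℝ)| * (‖σ‖ * |((u p * v q - u q * v p : ℤ) : ℝ)|))) := by ring
      _ ≤ (n + 1) * (2 ^ (e + 2) * R) := mul_le_mul_of_nonneg_left hs (by positivity)
      _ = _ := by ring
  refine ⟨?_, hfin⟩
  have h1 : 0 < T ^ e * (4 * |(a : ℝ)| * (‖σ‖ * Real.sqrt ((sp u u : ℝ) * sp v v))) := by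
    have : 0 < Real.sqrt ((sp u u : ℝ) * sp v v) := Real.sqrt_pos.2 (by positivity)
    positivity
  have h2 := h1.trans_le hfin
  by_contra hc
  push Not at hc
  have h4 : 2 ^ (e + 2) * ((n : ℝ) + 1) * R ≤ 0 := mul_nonpos_of_nonneg_of_nonpos (by positivity) hc
  linarith

/-- the measure on the box -/
noncomputable def bx (n e : ℕ) (A : ℝ) : Measure (Sym (Fin (n + 1)) (e + 1) → ℝ) :=
  Measure.pi fun _ => volume.restrict (Set.Icc (-A) A)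

/-- the measure of the set where the product of the two values is small -/
theorem bad1 (n e : ℕ) (A η : ℝ) (hA : 0 ≤ A) (hη : 0 < η) (hη1 : η ≤ 1) :
    ∃ K : ℝ, 0 < K ∧ ∀ (σ : ℂ) (u v : Fin (n + 1) → ℤ) (a b : ℤ) (ρ : ℝ), a ≠ 0 → σ ≠ 0 → Red u v → 0 ≤ ρ →
      bx n e A {g | ‖ev g (YY σ u v a b)‖ * ‖ev g (YY (-σ) u v a b)‖ ≤
        (‖YY σ u v a b‖ * ‖YY (-σ) u v a b‖) ^ (e + 1) * ρ} ≤
      ENNReal.ofReal (K * (MM σ u v a b * ρ / (‖σ‖ * Real.sqrt ((sp u u : ℝ) * sp v v))) ^ (1 - η)) := by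
  classical
  refine ⟨(2 * A) ^ η * (8 * (2 ^ (e + 2) * (n + 1))) ^ (1 - η) * (2 / η + 2 * A) *
    (2 * A) ^ (Fintype.card (Sym (Fin (n + 1)) (e + 1)) - 2) + 1, by positivity, ?_⟩
  intro σ u v a b ρ ha hσ h hρ
  obtain ⟨s, s', hR0, hs⟩ := geo2 (e := e) σ u v a b ha hσ h
  have hss : s ≠ s' := by
    intro h1
    rw [h1] at hR0
    simp [mul_comm] at hR0
  have hN1 : (0 : ℝ) < (sp u u : ℝ) := by exact_mod_cast h.1
  have hN2 : (0 : ℝ) < (sp v v : ℝ) := by exact_mod_cast h.2.1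
  have ha0 : (0 : ℝ) < |(a : ℝ)| := abs_pos.2 (by exact_mod_cast ha)
  have hσ0 : 0 < ‖σ‖ := norm_pos_iff.2 hσ
  have hS0 : 0 < Real.sqrt ((sp u u : ℝ) * sp v v) := Real.sqrt_pos.2 (by positivity)
  have h1 := multi (mon (YY σ u v a b)) (mon (YY (-σ) u v a b)) s s' hss
    ((‖YY σ u v a b‖ * ‖YY (-σ) u v a b‖) ^ (e + 1) * ρ) A η (by positivity) hA hη hη1 hR0
  refine le_trans (le_of_eq ?_) (h1.trans ?_)
  · unfold bx ev
    rfl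
  · rw [← ENNReal.ofReal_pow (by positivity), ← ENNReal.ofReal_mul (by positivity)]
    apply ENNReal.ofReal_le_ofReal
    have hMM : MM σ u v a b = ‖YY σ u v a b‖ * ‖YY (-σ) u v a b‖ / (4 * |(a : ℝ)|) := rfl
    rw [hMM]
    obtain ⟨T, hT⟩ : ∃ T, T = ‖YY σ u v a b‖ * ‖YY (-σ) u v a b‖ := ⟨_, rfl⟩
    obtain ⟨R, hR⟩ : ∃ R, R = ‖mon (YY σ u v a b) s' * mon (YY (-σ) u v a b) s -
        mon (YY (-σ) u v a b) s' * mon (YY σ u v a b) s‖ := ⟨_, rfl⟩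
    rw [← hR] at hs hR0 ⊢
    rw [← hT] at hs ⊢
    have hT0 : 0 ≤ T := by
      rw [hT]
      positivity
    obtain ⟨W, hW⟩ : ∃ W, W = ‖σ‖ * Real.sqrt ((sp u u : ℝ) * sp v v) := ⟨_, rfl⟩
    have hW0 : 0 < W := by
      rw [hW]
      positivity
    rw [← hW] at hs ⊢
    have h2 : T ^ (e + 1) * ρ / R ≤ (2 ^ (e + 2) * (n + 1)) * (T / (4 * |(a : ℝ)|) * ρ / W) := by
      rw [div_le_iff₀ hR0]
      have e1 : (2 ^ (e + 2) * ((n : ℝ) + 1)) * (T / (4 * |(a : ℝ)|) * ρ / W) * R =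
          (2 ^ (e + 2) * (n + 1) * R) * (T / (4 * |(a : ℝ)|) * ρ / W) := by ring
      rw [e1]
      refine le_trans (le_of_eq ?_) (mul_le_mul_of_nonneg_right hs (by positivity))
      field_simp
      ring
    obtain ⟨Z, hZ⟩ : ∃ Z, Z = T / (4 * |(a : ℝ)|) * ρ / W := ⟨_, rfl⟩
    have hZ0 : 0 ≤ Z := by
      rw [hZ]
      positivity
    rw [← hZ] at h2 ⊢
    have h3 : (8 * (T ^ (e + 1) * ρ / R)) ^ (1 - η) ≤ (8 * (2 ^ (e + 2) * ((n : ℝ) + 1))) ^ (1 - η) * Z ^ (1 - η) := by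
      rw [← Real.mul_rpow (by positivity) hZ0]
      apply Real.rpow_le_rpow (by positivity) _ (by linarith)
      linarith
    have h4 : 0 ≤ Z ^ (1 - η) := by positivity
    obtain ⟨w, hw⟩ : ∃ w, w = (2 * A) ^ (Fintype.card (Sym (Fin (n + 1)) (e + 1)) - 2) := ⟨_, rfl⟩
    have hw0 : 0 ≤ w := by
      rw [hw]
      positivity
    rw [← hw]
    calc (2 * A) ^ η * (8 * (T ^ (e + 1) * ρ / R)) ^ (1 - η) * (2 / η + 2 * A) * w ≤
        (2 * A) ^ η * ((8 * (2 ^ (e + 2) * ((n : ℝ) + 1))) ^ (1 - η) * Z ^ (1 - η)) * (2 / η + 2 * A) * w := by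
          apply mul_le_mul_of_nonneg_right _ hw0
          apply mul_le_mul_of_nonneg_right _ (by positivity)
          exact mul_le_mul_of_nonneg_left h3 (by positivity)
      _ = ((2 * A) ^ η * (8 * (2 ^ (e + 2) * ((n : ℝ) + 1))) ^ (1 - η) * (2 / η + 2 * A) * w) * Z ^ (1 - η) := by ring
      _ ≤ _ := by
          rw [add_mul, one_mul]
          linarith

end Pool.Agent.D0H91.VM
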