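import Mathlib
import Pool.Agent.D0H91.VM.Bad

/-! The total measure of the bad sets is finite. -/

set_option autoImplicit false

namespace Pool.Agent.D0H91.VM

open Finset MeasureTheory
open scoped ENNReal
open Pool.Agent.H813R3.Voj (op op_pos)

theorem expo (n : ℕ) (hn : 1 ≤ n) (ε η k P Q M t D : ℝ) (hε : 0 < ε) (hε1 : ε ≤ 1) (hη : 0 < η)
    (hηε : η * (n + 2) = ε / 4) (hk : 0 < k) (hP : 1 ≤ P) (hQ : 1 ≤ Q) (hM : 0 < M) (ht : 0 < t) (hD : 0 < D)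
    (h : P * Q ≤ k * M ^ 2) :
    (M * (M ^ (-((n : ℝ) + 1) - ε) / t) / (Real.sqrt D * Real.sqrt P)) ^ (1 - η) ≤
      k ^ (((n : ℝ) + ε) * (1 - η) / 2) * (P ^ (-(((n : ℝ) + 1) / 2) - ε / 4) *
        (Q ^ (-(1 / 2) - ε / 4) * (t ^ (-(1 - η)) * D ^ (-(1 - η) / 2)))) := by
  have hP0 : 0 < P := by linarith
  have hQ0 : 0 < Q := by linarith
  have hn1 : (1 : ℝ) ≤ n := by exact_mod_cast hn
  have hη1 : η < 1 := by
    have : η * 3 ≤ η * ((n : ℝ) + 2) := mul_le_mul_of_nonneg_left (by linarith) hη.le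
    linarith
  have hsD : 0 < Real.sqrt D := Real.sqrt_pos.2 hD
  have hsP : 0 < Real.sqrt P := Real.sqrt_pos.2 hP0
  rw [← Real.log_le_log_iff (by positivity) (by positivity)]
  rw [Real.log_rpow (by positivity), Real.log_div (by positivity) (by positivity), Real.log_mul (by positivity) (by positivity),
    Real.log_div (by positivity) (by positivity), Real.log_rpow hM, Real.log_mul (by positivity) (by positivity),
    Real.log_sqrt hD.le, Real.log_sqrt hP0.le, Real.log_mul (by positivity) (by positivity),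
    Real.log_mul (by positivity) (by positivity), Real.log_mul (by positivity) (by positivity),
    Real.log_mul (by positivity) (by positivity), Real.log_rpow hk, Real.log_rpow hP0, Real.log_rpow hQ0,
    Real.log_rpow ht, Real.log_rpow hD]
  have h1 := (Real.log_le_log_iff (by positivity) (by positivity)).2 h
  rw [Real.log_mul hP0.ne' hQ0.ne', Real.log_mul hk.ne' (by positivity), Real.log_pow] at h1
  have hp := Real.log_nonneg hP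
  have hq := Real.log_nonneg hQ
  obtain ⟨p, hp'⟩ : ∃ p, p = Real.log P := ⟨_, rfl⟩
  obtain ⟨q, hq'⟩ : ∃ q, q = Real.log Q := ⟨_, rfl⟩
  obtain ⟨m, hm'⟩ : ∃ m, m = Real.log M := ⟨_, rfl⟩
  obtain ⟨τ, hτ'⟩ : ∃ τ, τ = Real.log t := ⟨_, rfl⟩
  obtain ⟨d, hd'⟩ : ∃ d, d = Real.log D := ⟨_, rfl⟩
  obtain ⟨κ, hκ'⟩ : ∃ κ, κ = Real.log k := ⟨_, rfl⟩
  rw [← hp'] at h1 hp ⊢
  rw [← hq'] at h1 hq ⊢
  rw [← hm'] at h1 ⊢
  rw [← hκ'] at h1 ⊢
  rw [← hτ', ← hd']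
  push_cast at h1
  have h2 : ((n : ℝ) + ε) * (1 - η) * (p + q) ≤ ((n : ℝ) + ε) * (1 - η) * (κ + 2 * m) :=
    mul_le_mul_of_nonneg_left h1 (mul_nonneg (by positivity) (by linarith))
  have h3 : η * ε ≤ η * 1 := mul_le_mul_of_nonneg_left hε1 hη.le
  have h4 : ((n : ℝ) + 1 + ε / 2) * p ≤ ((n : ℝ) + 1 + ε) * (1 - η) * p := by
    apply mul_le_mul_of_nonneg_right _ hp
    nlinarith
  have h5 : (1 + ε / 2) * q ≤ ((n : ℝ) + ε) * (1 - η) * q := by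
    apply mul_le_mul_of_nonneg_right _ hq
    nlinarith
  nlinarith

/-- the square root of the discriminant -/
noncomputable def rt (D : ℤ) : ℂ := (IsAlgClosed.exists_pow_nat_eq (D : ℂ) (n := 2) (by norm_num)).choose

theorem rt_sq (D : ℤ) : rt D ^ 2 = D := (IsAlgClosed.exists_pow_nat_eq (D : ℂ) (n := 2) (by norm_num)).choose_spec

theorem rt_norm_sq (D : ℤ) : ‖rt D‖ ^ 2 = |(D : ℝ)| := by
  rw [← norm_pow, rt_sq, Complex.norm_intCast]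

theorem rt_norm (D : ℤ) : ‖rt D‖ = Real.sqrt |(D : ℝ)| := by
  rw [← rt_norm_sq, Real.sqrt_sq (norm_nonneg _)]

theorem rt_ne {D : ℤ} (h : D ≠ 0) : rt D ≠ 0 := by
  intro h1
  have := rt_sq D
  rw [h1] at this
  apply h
  have h2 : (D : ℂ) = 0 := by
    rw [← this]
    norm_num
  exact_mod_cast h2

/-- the part of the majorant which depends on the binary form -/
noncomputable def HH (ε η : ℝ) (b D : ℤ) : ℝ :=
  ((b : ℝ) ^ 2 + |(D : ℝ)|) ^ (-(1 / 2) - ε / 4) * ((op D.natAbs : ℝ) ^ (-(1 - η)) * |(D : ℝ)| ^ (-(1 - η) / 2))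

/-- the bad set of a datum -/
noncomputable def BB (n e : ℕ) (ε : ℝ) (u v : Fin (n + 1) → ℤ) (b a c : ℤ) : Set (Sym (Fin (n + 1)) (e + 1) → ℝ) :=
  {g | ‖ev g (YY (rt (b ^ 2 - 4 * (a * c))) u v a b)‖ * ‖ev g (YY (-rt (b ^ 2 - 4 * (a * c))) u v a b)‖ ≤
    (‖YY (rt (b ^ 2 - 4 * (a * c))) u v a b‖ * ‖YY (-rt (b ^ 2 - 4 * (a * c))) u v a b‖) ^ (e + 1) *
      (MM (rt (b ^ 2 - 4 * (a * c))) u v a b ^ (-((n : ℝ) + 1) - ε) / (op (b ^ 2 - 4 * (a * c)).natAbs : ℝ))}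

theorem sp_self_pos {n : ℕ} {u v : Fin (n + 1) → ℤ} (h : Red u v) : (1 : ℝ) ≤ (sp u u : ℝ) * sp v v := by
  have h1 : 1 ≤ sp u u := h.1
  have h2 : 1 ≤ sp v v := h.2.1
  have h3 : 1 ≤ sp u u * sp v v := by nlinarith
  exact_mod_cast h3

theorem bad2 (n e : ℕ) (hn : 1 ≤ n) (A ε η : ℝ) (hA : 0 ≤ A) (hε : 0 < ε) (hε1 : ε ≤ 1) (hη : 0 < η)
    (hηε : η * (n + 2) = ε / 4) :
    ∃ K : ℝ, 0 < K ∧ ∀ (u v : Fin (n + 1) → ℤ) (b a c : ℤ), a ≠ 0 → b ^ 2 - 4 * (a * c) ≠ 0 → Red u v →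
      bx n e A (BB n e ε u v b a c) ≤
      ENNReal.ofReal (K * (((sp u u : ℝ) * sp v v) ^ (-(((n : ℝ) + 1) / 2) - ε / 4) * HH ε η b (b ^ 2 - 4 * (a * c)))) := by
  have hn1 : (1 : ℝ) ≤ n := by exact_mod_cast hn
  have hη1 : η < 1 := by
    have : η * 3 ≤ η * ((n : ℝ) + 2) := mul_le_mul_of_nonneg_left (by linarith) hη.le
    linarith
  obtain ⟨K, hK, hb⟩ := bad1 n e A η hA hη hη1.le
  refine ⟨K * (8 * ((n : ℝ) + 1) ^ 2) ^ (((n : ℝ) + ε) * (1 - η) / 2), by positivity, ?_⟩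
  intro u v b a c ha hD h
  obtain ⟨D, hDd⟩ : ∃ D, D = b ^ 2 - 4 * (a * c) := ⟨_, rfl⟩
  unfold BB
  rw [← hDd] at hD ⊢
  have hσ := rt_ne hD
  obtain ⟨t, ht⟩ : ∃ t : ℝ, t = (op D.natAbs : ℝ) := ⟨_, rfl⟩
  have ht0 : 0 < t := by
    rw [ht]
    exact_mod_cast op_pos _
  have hM0 : 0 ≤ MM (rt D) u v a b := by
    unfold MM
    positivity
  have hPos := sp_self_pos h
  have hD1 : (1 : ℝ) ≤ |(D : ℝ)| := by
    have := Int.one_le_abs hD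
    exact_mod_cast this
  have hQ : (1 : ℝ) ≤ (b : ℝ) ^ 2 + |(D : ℝ)| := by nlinarith [sq_nonneg (b : ℝ)]
  have hg := geo1 (rt D) u v a b ha h
  rw [rt_norm_sq] at hg
  have hM : 0 < MM (rt D) u v a b := by
    rcases eq_or_lt_of_le hM0 with h1 | h1
    · exfalso
      rw [← h1] at hg
      have : (0 : ℝ) < ((sp u u : ℝ) * sp v v) * ((b : ℝ) ^ 2 + |(D : ℝ)|) := by positivity
      norm_num at hg
      linarith
    · exact h1
  have h1 := hb (rt D) u v a b (MM (rt D) u v a b ^ (-((n : ℝ) + 1) - ε) / t) ha hσ h (by positivity)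
  rw [← ht]
  refine h1.trans (ENNReal.ofReal_le_ofReal ?_)
  rw [mul_assoc]
  apply mul_le_mul_of_nonneg_left _ hK.le
  rw [rt_norm]
  unfold HH
  rw [← ht]
  exact expo n hn ε η _ _ _ _ _ _ hε hε1 hη hηε (by positivity) hPos hQ hM ht0 (by linarith) hg

theorem HH_bound (n : ℕ) (hn : 1 ≤ n) (ε η : ℝ) (hε : 0 < ε) (hη : 0 < η) (hηε : η * (n + 2) = ε / 4) :
    ∃ C : ℝ, 0 < C ∧ ∀ b k : ℤ, k ≠ 0 → b ^ 2 - 4 * k ≠ 0 →
      2 * (k.natAbs.divisors.card : ℝ) * HH ε η b (b ^ 2 - 4 * k) ≤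
      C * (((b : ℝ) ^ 2 + 1) ^ (-(1 / 2) - ε / 16) *
        ((op (b ^ 2 - 4 * k).natAbs : ℝ) ^ (-(3 / 2) : ℝ) * (rr (b ^ 2 - 4 * k).natAbs : ℝ) ^ (-(1 + ε / 6)))) := by
  obtain ⟨C, hC, hdiv⟩ := div_bound (ε / 16) (by positivity)
  refine ⟨C, hC, fun b k hk hD => ?_⟩
  have hn1 : (1 : ℝ) ≤ n := by exact_mod_cast hn
  have hη1 : η * 3 ≤ ε / 4 := by
    have : η * 3 ≤ η * ((n : ℝ) + 2) := mul_le_mul_of_nonneg_left (by linarith) hη.le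
    linarith
  obtain ⟨D, hDd⟩ : ∃ D, D = b ^ 2 - 4 * k := ⟨_, rfl⟩
  rw [← hDd] at hD ⊢
  have hkD : (k : ℝ) * 4 = (b : ℝ) ^ 2 - D := by
    rw [hDd]
    push_cast
    ring
  have hD1 : (1 : ℝ) ≤ |(D : ℝ)| := by
    have := Int.one_le_abs hD
    exact_mod_cast this
  have hb0 := sq_nonneg (b : ℝ)
  have hkQ : |(k : ℝ)| ≤ (b : ℝ) ^ 2 + |(D : ℝ)| := by
    have h1 : |(k : ℝ)| * 4 = |(b : ℝ) ^ 2 - D| := by
      rw [← hkD, abs_mul]
      norm_num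
    have h2 : |(b : ℝ) ^ 2 - D| ≤ (b : ℝ) ^ 2 + |(D : ℝ)| := by
      refine (abs_sub _ _).trans (le_of_eq ?_)
      rw [abs_of_nonneg hb0]
    have h3 := abs_nonneg (k : ℝ)
    linarith
  have h1 := hdiv k hk _ hkQ
  have ht0 : (1 : ℝ) ≤ (op D.natAbs : ℝ) := by exact_mod_cast op_pos D.natAbs
  have hr0 : (1 : ℝ) ≤ (rr D.natAbs : ℝ) := by exact_mod_cast rr_pos (Int.natAbs_ne_zero.2 hD)
  have hDt : |(D : ℝ)| = (op D.natAbs : ℝ) * (rr D.natAbs : ℝ) ^ 2 := by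
    have h2 := rr_spec (Int.natAbs_ne_zero.2 hD)
    have h3 : |(D : ℝ)| = (D.natAbs : ℝ) := by
      rw [Nat.cast_natAbs, Int.cast_abs]
    rw [h3]
    exact_mod_cast h2
  have hHH : 0 ≤ HH ε η b D := by
    unfold HH
    positivity
  refine (mul_le_mul_of_nonneg_right h1 hHH).trans ?_
  rw [mul_assoc]
  apply mul_le_mul_of_nonneg_left _ hC.le
  unfold HH
  obtain ⟨t, ht⟩ : ∃ t : ℝ, t = (op D.natAbs : ℝ) := ⟨_, rfl⟩
  obtain ⟨r, hr⟩ : ∃ r : ℝ, r = (rr D.natAbs : ℝ) := ⟨_, rfl⟩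
  rw [← ht] at ht0 hDt ⊢
  rw [← hr] at hr0 hDt ⊢
  obtain ⟨Δ, hΔ⟩ : ∃ Δ : ℝ, Δ = |(D : ℝ)| := ⟨_, rfl⟩
  rw [← hΔ] at hD1 hDt ⊢
  obtain ⟨Q, hQ⟩ : ∃ Q : ℝ, Q = (b : ℝ) ^ 2 + Δ := ⟨_, rfl⟩
  obtain ⟨R, hR⟩ : ∃ R : ℝ, R = (b : ℝ) ^ 2 + 1 := ⟨_, rfl⟩
  rw [← hQ, ← hR]
  have hR1 : 1 ≤ R := by linarith
  have hQR : R ≤ Q := by linarith
  have hQD : Δ ≤ Q := by linarith
  have hR0 : 0 < R := by linarith
  have hQ0 : 0 < Q := by linarith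
  have hΔ0 : 0 < Δ := by linarith
  have ht00 : 0 < t := by linarith
  have hr00 : 0 < r := by linarith
  rw [← Real.log_le_log_iff (by positivity) (by positivity)]
  rw [Real.log_mul (by positivity) (by positivity), Real.log_mul (by positivity) (by positivity),
    Real.log_mul (by positivity) (by positivity), Real.log_mul (by positivity) (by positivity),
    Real.log_mul (by positivity) (by positivity), Real.log_rpow hQ0, Real.log_rpow hQ0, Real.log_rpow ht00,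
    Real.log_rpow hΔ0, Real.log_rpow hR0, Real.log_rpow ht00, Real.log_rpow hr00]
  have l1 : Real.log R ≤ Real.log Q := Real.log_le_log hR0 hQR
  have l2 : Real.log Δ ≤ Real.log Q := Real.log_le_log hΔ0 hQD
  have l3 : Real.log Δ = Real.log t + 2 * Real.log r := by
    rw [hDt, Real.log_mul (by positivity) (by positivity), Real.log_pow]
    push_cast
    ring
  have l4 := Real.log_nonneg ht0
  have l5 := Real.log_nonneg hr0
  rw [l3] at l2 ⊢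
  obtain ⟨q, hq'⟩ : ∃ q, q = Real.log Q := ⟨_, rfl⟩
  obtain ⟨τ, hτ'⟩ : ∃ τ, τ = Real.log t := ⟨_, rfl⟩
  obtain ⟨ρ, hρ'⟩ : ∃ ρ, ρ = Real.log r := ⟨_, rfl⟩
  obtain ⟨p, hp'⟩ : ∃ p, p = Real.log R := ⟨_, rfl⟩
  rw [← hq'] at l1 l2 ⊢
  rw [← hτ'] at l2 l4 ⊢
  rw [← hρ'] at l2 l5 ⊢
  rw [← hp'] at l1 ⊢
  have m1 : (1 / 2 + ε / 16) * p ≤ (1 / 2 + ε / 16) * q := mul_le_mul_of_nonneg_left l1 (by positivity)
  have m2 : (ε / 8) * (τ + 2 * ρ) ≤ (ε / 8) * q := mul_le_mul_of_nonneg_left l2 (by positivity)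
  have m3 : η * 3 * τ ≤ ε / 4 * τ := mul_le_mul_of_nonneg_right hη1 l4
  have m4 : η * 3 * ρ ≤ ε / 4 * ρ := mul_le_mul_of_nonneg_right hη1 l5
  nlinarith

end Pool.Agent.D0H91.VM
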