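import Mathlib
import Pool.Agent.D0H91.VM.Total

/-! The total measure of the bad sets is finite, and the conclusion for almost every form. -/

set_option autoImplicit false

namespace Pool.Agent.D0H91.VM

open Finset MeasureTheory
open scoped ENNReal
open Pool.Agent.H813R3.Voj (op op_pos)

/-- the valid data -/
def Val {n : ℕ} (u v : Fin (n + 1) → ℤ) (b a c : ℤ) : Prop := Red u v ∧ a ≠ 0 ∧ c ≠ 0 ∧ b ^ 2 - 4 * (a * c) ≠ 0

/-- the sum over the binary forms -/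
theorem sum_forms (n : ℕ) (hn : 1 ≤ n) (ε η : ℝ) (hε : 0 < ε) (hη : 0 < η) (hηε : η * (n + 2) = ε / 4) :
    ∑' b : ℤ, ∑' a : ℤ, ∑' c : ℤ, (if a ≠ 0 ∧ c ≠ 0 then
      (if b ^ 2 - 4 * (a * c) = 0 then 0 else ENNReal.ofReal (HH ε η b (b ^ 2 - 4 * (a * c)))) else 0) < ⊤ := by
  obtain ⟨C, hC, hH⟩ := HH_bound n hn ε η hε hη hηε
  obtain ⟨Z, hZ⟩ : ∃ Z : ℤ → ℝ≥0∞, Z = fun D => (if D = 0 then 0 else
      ENNReal.ofReal ((op D.natAbs : ℝ) ^ (-(3 / 2) : ℝ) * (rr D.natAbs : ℝ) ^ (-(1 + ε / 6)))) := ⟨_, rfl⟩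
  have h1 : ∀ b : ℤ, ∑' a : ℤ, ∑' c : ℤ, (if a ≠ 0 ∧ c ≠ 0 then
      (if b ^ 2 - 4 * (a * c) = 0 then 0 else ENNReal.ofReal (HH ε η b (b ^ 2 - 4 * (a * c)))) else 0) ≤
      ENNReal.ofReal C * ENNReal.ofReal (((b : ℝ) ^ 2 + 1) ^ (-(1 / 2) - ε / 16)) * ∑' D : ℤ, Z D := by
    intro b
    refine (sum_pairs (fun k => if b ^ 2 - 4 * k = 0 then 0 else ENNReal.ofReal (HH ε η b (b ^ 2 - 4 * k)))).trans ?_
    have h2 : ∀ k : ℤ, (if k = 0 then 0 else 2 * (k.natAbs.divisors.card : ℝ≥0∞) *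
        (if b ^ 2 - 4 * k = 0 then 0 else ENNReal.ofReal (HH ε η b (b ^ 2 - 4 * k)))) ≤
        ENNReal.ofReal C * ENNReal.ofReal (((b : ℝ) ^ 2 + 1) ^ (-(1 / 2) - ε / 16)) * Z (b ^ 2 - 4 * k) := by
      intro k
      split_ifs with hk hD
      · exact bot_le
      · rw [mul_zero]
        exact bot_le
      · rw [hZ]
        simp only
        rw [if_neg hD]
        have e1 : (2 : ℝ≥0∞) * (k.natAbs.divisors.card : ℝ≥0∞) = ENNReal.ofReal (2 * (k.natAbs.divisors.card : ℝ)) := by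
          rw [ENNReal.ofReal_mul (by norm_num), ENNReal.ofReal_natCast, ENNReal.ofReal_ofNat]
        rw [e1, ← ENNReal.ofReal_mul (by positivity), ← ENNReal.ofReal_mul (by positivity),
          ← ENNReal.ofReal_mul (by positivity)]
        apply ENNReal.ofReal_le_ofReal
        rw [mul_assoc C]
        exact hH b k hk hD
    refine (ENNReal.tsum_le_tsum h2).trans ?_
    rw [ENNReal.tsum_mul_left]
    apply mul_le_mul_right
    have hinj : Function.Injective (fun k : ℤ => b ^ 2 - 4 * k) := by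
      intro k k' h
      simp only at h
      omega
    exact ENNReal.tsum_comp_le_tsum_of_injective hinj Z
  refine (ENNReal.tsum_le_tsum h1).trans_lt ?_
  rw [ENNReal.tsum_mul_right, ENNReal.tsum_mul_left]
  apply ENNReal.mul_lt_top
  · apply ENNReal.mul_lt_top ENNReal.ofReal_lt_top
    exact sum_int (ε / 16) (by positivity)
  · rw [hZ]
    exact sum_disc (ε / 6) (by positivity)

theorem rv_norm_sq {n : ℕ} (u : Fin (n + 1) → ℤ) : ‖rv u‖ ^ 2 ≤ (sp u u : ℝ) := by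
  obtain ⟨i, hi⟩ := Finite.exists_max (fun i => ‖rv u i‖)
  have h1 : ‖rv u‖ ≤ ‖rv u i‖ := by
    rw [pi_norm_le_iff_of_nonneg (norm_nonneg _)]
    exact hi
  have h2 : ‖rv u‖ ^ 2 ≤ ‖rv u i‖ ^ 2 := pow_le_pow_left₀ (norm_nonneg _) h1 2
  refine h2.trans ?_
  have h3 : ‖rv u i‖ ^ 2 = ((u i * u i : ℤ) : ℝ) := by
    unfold rv
    rw [Real.norm_eq_abs, sq_abs]
    push_cast
    ring
  rw [h3]
  have h4 : u i * u i ≤ sp u u := by
    unfold sp
    exact Finset.single_le_sum (f := fun i => u i * u i) (fun j _ => mul_self_nonneg (u j)) (Finset.mem_univ i)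
  exact_mod_cast h4

theorem rv_pos {n : ℕ} (u : Fin (n + 1) → ℤ) (h : 0 < sp u u) : 0 < ‖rv u‖ := by
  rw [norm_pos_iff]
  intro h1
  have h2 : ∀ i, u i = 0 := by
    intro i
    have := congrFun h1 i
    unfold rv at this
    simpa using this
  unfold sp at h
  simp [h2] at h

/-- the bad set of a point of the parameter space -/
noncomputable def SB (n e : ℕ) (ε : ℝ) (x : ((Fin (n + 1) → ℤ) × (Fin (n + 1) → ℤ)) × (ℤ × (ℤ × ℤ))) :
    Set (Sym (Fin (n + 1)) (e + 1) → ℝ) :=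
  {g | Val x.1.1 x.1.2 x.2.1 x.2.2.1 x.2.2.2 ∧ g ∈ BB n e ε x.1.1 x.1.2 x.2.1 x.2.2.1 x.2.2.2}

theorem total (n e : ℕ) (hn : 1 ≤ n) (A ε : ℝ) (hA : 0 ≤ A) (hε : 0 < ε) (hε1 : ε ≤ 1) :
    ∑' x, bx n e A (SB n e ε x) ≠ ⊤ := by
  obtain ⟨η, hη⟩ : ∃ η : ℝ, η = ε / 4 / (n + 2) := ⟨_, rfl⟩
  have hη0 : 0 < η := by
    rw [hη]
    positivity
  have hηε : η * (n + 2) = ε / 4 := by
    rw [hη]
    field_simp
  obtain ⟨K, hK, hb⟩ := bad2 n e hn A ε η hA hε hε1 hη0 hηε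
  obtain ⟨F, hF⟩ : ∃ F : (Fin (n + 1) → ℤ) → ℝ≥0∞, F = fun u =>
    ENNReal.ofReal (‖rv u‖ ^ (-(((n + 1 : ℕ) : ℝ) + ε / 2))) := ⟨_, rfl⟩
  obtain ⟨G, hG⟩ : ∃ G : ℤ × (ℤ × ℤ) → ℝ≥0∞, G = fun y => (if y.2.1 ≠ 0 ∧ y.2.2 ≠ 0 then
      (if y.1 ^ 2 - 4 * (y.2.1 * y.2.2) = 0 then 0 else ENNReal.ofReal (HH ε η y.1 (y.1 ^ 2 - 4 * (y.2.1 * y.2.2)))) else 0) :=
    ⟨_, rfl⟩
  have h1 : ∀ x, bx n e A (SB n e ε x) ≤ (fun w : (Fin (n + 1) → ℤ) × (Fin (n + 1) → ℤ) =>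
      ENNReal.ofReal K * (F w.1 * F w.2)) x.1 * G x.2 := by
    rintro ⟨⟨u, v⟩, b, a, c⟩
    by_cases hv : Val u v b a c
    · obtain ⟨hr, ha, hc, hD⟩ := hv
      have h2 : SB n e ε ((u, v), (b, (a, c))) ⊆ BB n e ε u v b a c := fun g hg => hg.2
      refine (measure_mono h2).trans ((hb u v b a c ha hD hr).trans ?_)
      rw [hG, hF]
      simp only
      rw [if_pos ⟨ha, hc⟩, if_neg hD, ← ENNReal.ofReal_mul (by positivity), ← ENNReal.ofReal_mul hK.le,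
        ← ENNReal.ofReal_mul (by positivity)]
      apply ENNReal.ofReal_le_ofReal
      rw [mul_assoc]
      apply mul_le_mul_of_nonneg_left _ hK.le
      have hHH : 0 ≤ HH ε η b (b ^ 2 - 4 * (a * c)) := by
        unfold HH
        positivity
      apply mul_le_mul_of_nonneg_right _ hHH
      have hN1 : (0 : ℝ) < (sp u u : ℝ) := by exact_mod_cast hr.1
      have hN2 : (0 : ℝ) < (sp v v : ℝ) := by exact_mod_cast hr.2.1
      rw [Real.mul_rpow hN1.le hN2.le]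
      have key : ∀ w : Fin (n + 1) → ℤ, 0 < sp w w → (sp w w : ℝ) ^ (-(((n : ℝ) + 1) / 2) - ε / 4) ≤
          ‖rv w‖ ^ (-(((n + 1 : ℕ) : ℝ) + ε / 2)) := by
        intro w hw
        have hw0 := rv_pos w hw
        have e1 : ‖rv w‖ ^ (-(((n + 1 : ℕ) : ℝ) + ε / 2)) = (‖rv w‖ ^ 2) ^ (-(((n : ℝ) + 1) / 2) - ε / 4) := by
          rw [← Real.rpow_natCast, ← Real.rpow_mul hw0.le]
          congr 1
          push_cast
          ring
        rw [e1]
        apply Real.rpow_le_rpow_of_nonpos (by positivity) (rv_norm_sq w)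
        have : (0 : ℝ) ≤ n := Nat.cast_nonneg n
        linarith
      exact mul_le_mul (key u hr.1) (key v hr.2.1) (by positivity) (by positivity)
    · have h2 : SB n e ε ((u, v), (b, (a, c))) = ∅ := by
        ext g
        constructor
        · intro hg
          exact absurd hg.1 hv
        · intro hg
          exact absurd hg (Set.notMem_empty g)
      rw [h2, measure_empty]
      exact bot_le
  have h2 : ∑' x, bx n e A (SB n e ε x) < ⊤ := by
    refine (ENNReal.tsum_le_tsum h1).trans_lt ?_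
    rw [tsum_prod_mul (fun w : (Fin (n + 1) → ℤ) × (Fin (n + 1) → ℤ) => ENNReal.ofReal K * (F w.1 * F w.2)) G]
    apply ENNReal.mul_lt_top
    · rw [ENNReal.tsum_mul_left, tsum_prod_mul]
      apply ENNReal.mul_lt_top ENNReal.ofReal_lt_top
      have h3 : ∑' u, F u < ⊤ := by
        rw [hF]
        exact sum_vec (n + 1) _ (by linarith)
      exact ENNReal.mul_lt_top h3 h3
    · rw [ENNReal.tsum_prod']
      have h4 : ∀ b : ℤ, ∑' y : ℤ × ℤ, G (b, y) = ∑' a : ℤ, ∑' c : ℤ, G (b, (a, c)) := fun b => ENNReal.tsum_prod'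
      simp only [h4]
      rw [hG]
      exact sum_forms n hn ε η hε hη0 hηε
  exact h2.ne

end Pool.Agent.D0H91.VM
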