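import Mathlib
import Pool.Agent.D0H91.VM.Tot

/-! Almost every form is good for all data. -/

set_option autoImplicit false

namespace Pool.Agent.D0H91.VM

open Finset MeasureTheory
open scoped ENNReal
open Pool.Agent.H813R3.Voj (op op_pos)

theorem bx_eq (n e : ℕ) (A : ℝ) : bx n e A = volume.restrict (Set.univ.pi fun _ => Set.Icc (-A) A) := by
  unfold bx
  rw [volume_pi, Measure.restrict_pi_pi]

theorem ae_of_box {n e : ℕ} {P : (Sym (Fin (n + 1)) (e + 1) → ℝ) → Prop} (h : ∀ A : ℕ, ∀ᵐ g ∂(bx n e A), P g) :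
    ∀ᵐ g, P g := by
  have h1 : ∀ A : ℕ, ∀ᵐ g : Sym (Fin (n + 1)) (e + 1) → ℝ,
      g ∈ Set.univ.pi (fun _ : Sym (Fin (n + 1)) (e + 1) => Set.Icc (-(A : ℝ)) A) → P g := by
    intro A
    have h2 := h A
    rw [bx_eq, ae_restrict_iff' (MeasurableSet.univ_pi fun _ => measurableSet_Icc)] at h2
    exact h2
  filter_upwards [ae_all_iff.2 h1] with g hg
  obtain ⟨A, hA⟩ := exists_nat_ge ‖g‖
  apply hg A
  intro s _
  have h2 := norm_le_pi_norm g s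
  rw [Real.norm_eq_abs, abs_le] at h2
  exact ⟨by linarith [h2.1], by linarith [h2.2]⟩

theorem ae_pos (n e : ℕ) (A : ℝ) (hA : 0 ≤ A) (u v : Fin (n + 1) → ℤ) (b a c : ℤ) (h : Val u v b a c) :
    ∀ᵐ g ∂(bx n e A), 0 < ‖ev g (YY (rt (b ^ 2 - 4 * (a * c))) u v a b)‖ *
      ‖ev g (YY (-rt (b ^ 2 - 4 * (a * c))) u v a b)‖ := by
  obtain ⟨K, hK, hb⟩ := bad1 n e A (1 / 2) hA (by norm_num) (by norm_num)
  have h1 := hb (rt (b ^ 2 - 4 * (a * c))) u v a b 0 h.2.1 (rt_ne h.2.2.2) h.1 le_rfl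
  rw [mul_zero, mul_zero, zero_div, Real.zero_rpow (by norm_num), mul_zero, ENNReal.ofReal_zero] at h1
  rw [ae_iff]
  refine measure_mono_null ?_ (le_antisymm h1 bot_le)
  intro g hg
  rw [Set.mem_ofPred_eq] at hg ⊢
  exact not_lt.1 hg

/-- the quantity which has to be bounded -/
noncomputable def LL {n e : ℕ} (g : Sym (Fin (n + 1)) (e + 1) → ℝ) (u v : Fin (n + 1) → ℤ) (b a c : ℤ) : ℝ :=
  Real.log ((‖YY (rt (b ^ 2 - 4 * (a * c))) u v a b‖ * ‖YY (-rt (b ^ 2 - 4 * (a * c))) u v a b‖) ^ (e + 1) /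
    (‖ev g (YY (rt (b ^ 2 - 4 * (a * c))) u v a b)‖ * ‖ev g (YY (-rt (b ^ 2 - 4 * (a * c))) u v a b)‖))

/-- its bound -/
noncomputable def RR {n : ℕ} (ε : ℝ) (u v : Fin (n + 1) → ℤ) (b a c : ℤ) : ℝ :=
  ((n : ℝ) + 1 + ε) * Real.log (MM (rt (b ^ 2 - 4 * (a * c))) u v a b) +
    Real.log (op (b ^ 2 - 4 * (a * c)).natAbs : ℝ)

theorem core (n e : ℕ) (hn : 1 ≤ n) : ∀ᵐ g : Sym (Fin (n + 1)) (e + 1) → ℝ, ∀ k : ℕ, ∃ C : ℝ,
    ∀ (u v : Fin (n + 1) → ℤ) (b a c : ℤ), Val u v b a c →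
      0 < ‖ev g (YY (rt (b ^ 2 - 4 * (a * c))) u v a b)‖ * ‖ev g (YY (-rt (b ^ 2 - 4 * (a * c))) u v a b)‖ ∧
      LL g u v b a c ≤ RR (1 / ((k : ℝ) + 1)) u v b a c + C := by
  apply ae_of_box
  intro A
  have hA : (0 : ℝ) ≤ (A : ℝ) := Nat.cast_nonneg A
  have h1 : ∀ᵐ g ∂(bx n e (A : ℝ)), ∀ (x : ((Fin (n + 1) → ℤ) × (Fin (n + 1) → ℤ)) × (ℤ × (ℤ × ℤ))),
      Val x.1.1 x.1.2 x.2.1 x.2.2.1 x.2.2.2 →
      0 < ‖ev g (YY (rt (x.2.1 ^ 2 - 4 * (x.2.2.1 * x.2.2.2))) x.1.1 x.1.2 x.2.2.1 x.2.1)‖ *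
        ‖ev g (YY (-rt (x.2.1 ^ 2 - 4 * (x.2.2.1 * x.2.2.2))) x.1.1 x.1.2 x.2.2.1 x.2.1)‖ := by
    rw [ae_all_iff]
    intro x
    by_cases hx : Val x.1.1 x.1.2 x.2.1 x.2.2.1 x.2.2.2
    · filter_upwards [ae_pos n e A hA _ _ _ _ _ hx] with g hg _
      exact hg
    · exact Filter.Eventually.of_forall fun g hg => absurd hg hx
  have h2 : ∀ᵐ g ∂(bx n e (A : ℝ)), ∀ k : ℕ, {x | g ∈ SB n e (1 / ((k : ℝ) + 1)) x}.Finite := by
    rw [ae_all_iff]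
    intro k
    apply ae_finite_setOfPred_mem
    apply total n e hn A _ hA (by positivity)
    rw [div_le_one (by positivity)]
    have : (0 : ℝ) ≤ k := Nat.cast_nonneg k
    linarith
  filter_upwards [h1, h2] with g hg1 hg2 k
  have hfin := hg2 k
  obtain ⟨ε, hε⟩ : ∃ ε : ℝ, ε = 1 / ((k : ℝ) + 1) := ⟨_, rfl⟩
  rw [← hε] at hfin ⊢
  obtain ⟨φ, hφ⟩ : ∃ φ : ((Fin (n + 1) → ℤ) × (Fin (n + 1) → ℤ)) × (ℤ × (ℤ × ℤ)) → ℝ,
    φ = fun x => LL g x.1.1 x.1.2 x.2.1 x.2.2.1 x.2.2.2 - RR ε x.1.1 x.1.2 x.2.1 x.2.2.1 x.2.2.2 := ⟨_, rfl⟩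
  have hφ' : ∀ u v b a c, φ ((u, v), (b, (a, c))) = LL g u v b a c - RR ε u v b a c := by
    intro u v b a c
    rw [hφ]
  refine ⟨∑ x ∈ hfin.toFinset, |φ x|, fun u v b a c hv => ?_⟩
  have hpos := hg1 ((u, v), (b, (a, c))) hv
  refine ⟨hpos, ?_⟩
  by_cases hx : ((u, v), (b, (a, c))) ∈ hfin.toFinset
  · have h3 := Finset.single_le_sum (f := fun x => |φ x|) (fun y _ => abs_nonneg (φ y)) hx
    have h4 := le_abs_self (φ ((u, v), (b, (a, c))))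
    rw [hφ'] at h3 h4
    linarith
  · have h3 : (0 : ℝ) ≤ ∑ x ∈ hfin.toFinset, |φ x| := Finset.sum_nonneg fun y _ => abs_nonneg (φ y)
    rw [Set.Finite.mem_toFinset, Set.mem_ofPred_eq] at hx
    have h4 : ¬ g ∈ BB n e ε u v b a c := fun h => hx ⟨hv, h⟩
    unfold BB at h4
    rw [Set.mem_ofPred_eq, not_le] at h4
    obtain ⟨hr, ha, hc, hD⟩ := hv
    simp only at hpos
    unfold LL RR
    obtain ⟨D, hDd⟩ : ∃ D, D = b ^ 2 - 4 * (a * c) := ⟨_, rfl⟩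
    rw [← hDd] at h4 hD hpos ⊢
    obtain ⟨V, hV⟩ : ∃ V, V = ‖ev g (YY (rt D) u v a b)‖ * ‖ev g (YY (-rt D) u v a b)‖ := ⟨_, rfl⟩
    rw [← hV] at h4 hpos ⊢
    have hg := geo1 (rt D) u v a b ha hr
    rw [rt_norm_sq] at hg
    have hPos := sp_self_pos hr
    have hD1 : (1 : ℝ) ≤ |(D : ℝ)| := by
      have := Int.one_le_abs hD
      exact_mod_cast this
    have hM0 : 0 ≤ MM (rt D) u v a b := by
      unfold MM
      positivity
    have hM : 0 < MM (rt D) u v a b := by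
      rcases eq_or_lt_of_le hM0 with h5 | h5
      · exfalso
        rw [← h5] at hg
        have : (0 : ℝ) < ((sp u u : ℝ) * sp v v) * ((b : ℝ) ^ 2 + |(D : ℝ)|) := by positivity
        norm_num at hg
        linarith
      · exact h5
    obtain ⟨T, hT⟩ : ∃ T, T = ‖YY (rt D) u v a b‖ * ‖YY (-rt D) u v a b‖ := ⟨_, rfl⟩
    have hMT : MM (rt D) u v a b = T / (4 * |(a : ℝ)|) := by rw [hT]; rfl
    have ha0 : (0 : ℝ) < |(a : ℝ)| := abs_pos.2 (by exact_mod_cast ha)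
    have hT0 : 0 < T := by
      rw [hMT] at hM
      have := (div_pos_iff_of_pos_right (show (0 : ℝ) < 4 * |(a : ℝ)| by positivity)).1 hM
      exact this
    rw [← hT] at h4 ⊢
    obtain ⟨M, hMM⟩ : ∃ M, M = MM (rt D) u v a b := ⟨_, rfl⟩
    rw [← hMM] at h4 hM ⊢
    have ht0 : (0 : ℝ) < (op D.natAbs : ℝ) := by exact_mod_cast op_pos _
    have h5 : T ^ (e + 1) / V ≤ M ^ (((n : ℝ) + 1) + ε) * (op D.natAbs : ℝ) := by
      rw [div_le_iff₀ hpos]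
      have e1 : (M ^ (((n : ℝ) + 1) + ε) * (op D.natAbs : ℝ)) *
          (T ^ (e + 1) * (M ^ (-((n : ℝ) + 1) - ε) / (op D.natAbs : ℝ))) = T ^ (e + 1) := by
        have e2 : M ^ (((n : ℝ) + 1) + ε) * M ^ (-((n : ℝ) + 1) - ε) = 1 := by
          rw [← Real.rpow_add hM]
          have : ((n : ℝ) + 1) + ε + (-((n : ℝ) + 1) - ε) = 0 := by ring
          rw [this, Real.rpow_zero]
        calc _ = (M ^ (((n : ℝ) + 1) + ε) * M ^ (-((n : ℝ) + 1) - ε)) * T ^ (e + 1) *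
              ((op D.natAbs : ℝ) / (op D.natAbs : ℝ)) := by ring
          _ = _ := by
              rw [e2, div_self ht0.ne', mul_one, one_mul]
      calc T ^ (e + 1) = _ := e1.symm
        _ ≤ _ := mul_le_mul_of_nonneg_left h4.le (by positivity)
    have h6 := Real.log_le_log (by positivity) h5
    rw [Real.log_mul (by positivity) (by positivity), Real.log_rpow hM] at h6
    linarith

end Pool.Agent.D0H91.VM
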