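import Mathlib
import Pool.Agent.D0H91.VM.Alg2
import Pool.Agent.D0H91.VM.Core

/-! The data of an irrational quadratic point. -/

set_option autoImplicit false

namespace Pool.Agent.D0H91.VM

open Finset NumberField
open Pool.Agent.H813R3.Voj (op op_pos)

theorem MM_neg {n : ℕ} (σ : ℂ) (u v : Fin (n + 1) → ℤ) (a b : ℤ) : MM (-σ) u v a b = MM σ u v a b := by
  unfold MM
  rw [neg_neg, mul_comm ‖YY (-σ) u v a b‖]

open Classical in
theorem extract0 {L : Type*} [Field L] [NumberField L] (h2 : Module.finrank ℚ L = 2) {n : ℕ}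
    (x : Fin (n + 1) → 𝓞 L) (hx : ∀ (l : L) (w : Fin (n + 1) → ℤ), ¬ ∀ i, (x i : L) = l * w i)
    (ψ₁ ψ₂ : L →+* ℂ) (hne : ψ₁ ≠ ψ₂) (huniv : (Finset.univ : Finset (L →+* ℂ)) = {ψ₁, ψ₂}) :
    ∃ (u v : Fin (n + 1) → ℤ) (b a c : ℤ) (s r₁ r₂ : ℂ), Val u v b a c ∧ s ^ 2 = ((b ^ 2 - 4 * (a * c) : ℤ) : ℂ) ∧
      r₁ ≠ 0 ∧ r₂ ≠ 0 ∧
      (fun i => ψ₁ (x i)) = r₁ • YY (-s) u v a b ∧ (fun i => ψ₂ (x i)) = r₂ • YY s u v a b ∧
      Height.mulHeight (fun i => (x i : L)) = MM s u v a b ∧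
      (op (b ^ 2 - 4 * (a * c)).natAbs : ℝ) ≤ |(NumberField.discr L : ℝ)| := by
  obtain ⟨ξ₁, ξ₂, u, v, hξ₁, hξ₂, hred, hxi⟩ := exists_red h2 x hx
  obtain ⟨N, hN⟩ : ∃ N, N = (Ideal.span (Set.range x)).absNorm := ⟨_, rfl⟩
  have hx0 : x ≠ 0 := by
    intro h
    apply hx 0 0
    intro i
    rw [h]
    simp
  have hI0 : Ideal.span (Set.range x) ≠ ⊥ := by
    intro h
    apply hx0
    funext i
    have h3 : x i ∈ Ideal.span (Set.range x) := Ideal.subset_span ⟨i, rfl⟩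
    rw [h, Ideal.mem_bot] at h3
    exact h3
  have hN0 : N ≠ 0 := by
    rw [hN]
    intro h
    exact hI0 (Ideal.absNorm_eq_zero_iff.1 h)
  have hNC : (N : ℂ) ≠ 0 := by exact_mod_cast hN0
  have hNR : (0 : ℝ) < (N : ℝ) := by exact_mod_cast Nat.pos_of_ne_zero hN0
  -- norms
  have hnorm : ∀ y : 𝓞 L, ((Algebra.norm ℤ y : ℤ) : ℂ) = ψ₁ y * ψ₂ y := by
    intro y
    have h3 := norm_emb (y : L)
    rw [← Algebra.coe_norm_int] at h3
    rw [huniv, Finset.prod_pair hne] at h3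
    rw [← h3]
    norm_cast
  have hdvd : ∀ y ∈ Ideal.span (Set.range x), ∃ k : ℤ, (N : ℂ) * k = ψ₁ (y : L) * ψ₂ (y : L) := by
    intro y hy
    obtain ⟨k, hk⟩ := Ideal.absNorm_dvd_norm_of_mem hy
    refine ⟨k, ?_⟩
    rw [← hnorm, hk, hN]
    push_cast
    ring
  obtain ⟨a, ha⟩ := hdvd ξ₁ hξ₁
  obtain ⟨c, hc⟩ := hdvd ξ₂ hξ₂
  obtain ⟨m, hm⟩ := hdvd (ξ₁ + ξ₂) (Ideal.add_mem _ hξ₁ hξ₂)
  obtain ⟨b, hb⟩ : ∃ b : ℤ, b = m - a - c := ⟨_, rfl⟩
  rw [vadd, map_add, map_add] at hm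
  have hξ₁0 : ξ₁ ≠ 0 := by
    intro h
    apply hx ξ₂ v
    intro i
    rw [hxi i, h, mul_zero, zero_add, vmul, vint, mul_comm]
  have hξ₂0 : ξ₂ ≠ 0 := by
    intro h
    apply hx ξ₁ u
    intro i
    rw [hxi i, h, mul_zero, add_zero, vmul, vint, mul_comm]
  have hL1 : (ξ₁ : L) ≠ 0 := by exact_mod_cast hξ₁0
  have hL2 : (ξ₂ : L) ≠ 0 := by exact_mod_cast hξ₂0
  obtain ⟨p1, hp1⟩ : ∃ p, p = ψ₁ ξ₁ := ⟨_, rfl⟩
  obtain ⟨p2, hp2⟩ : ∃ p, p = ψ₁ ξ₂ := ⟨_, rfl⟩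
  obtain ⟨q1, hq1⟩ : ∃ p, p = ψ₂ ξ₁ := ⟨_, rfl⟩
  obtain ⟨q2, hq2⟩ : ∃ p, p = ψ₂ ξ₂ := ⟨_, rfl⟩
  rw [← hp1, ← hq1] at ha
  rw [← hp2, ← hq2] at hc
  rw [← hp1, ← hq1, ← hp2, ← hq2] at hm
  have hp10 : p1 ≠ 0 := by
    rw [hp1]
    exact (map_ne_zero ψ₁).2 hL1
  have hp20 : p2 ≠ 0 := by
    rw [hp2]
    exact (map_ne_zero ψ₁).2 hL2
  have hq10 : q1 ≠ 0 := by
    rw [hq1]
    exact (map_ne_zero ψ₂).2 hL1
  have hq20 : q2 ≠ 0 := by
    rw [hq2]
    exact (map_ne_zero ψ₂).2 hL2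
  have hbC : (N : ℂ) * b = p1 * q2 + p2 * q1 := by
    rw [hb]
    push_cast
    linear_combination hm - ha - hc
  obtain ⟨s, hs⟩ : ∃ s : ℂ, s = (p1 * q2 - p2 * q1) / N := ⟨_, rfl⟩
  have hsN : (N : ℂ) * s = p1 * q2 - p2 * q1 := by
    rw [hs]
    field_simp
  have hsD : s ^ 2 = ((b ^ 2 - 4 * (a * c) : ℤ) : ℂ) := by
    have h3 : (N : ℂ) ^ 2 * s ^ 2 = (N : ℂ) ^ 2 * ((b ^ 2 - 4 * (a * c) : ℤ) : ℂ) := by
      push_cast
      calc (N : ℂ) ^ 2 * s ^ 2 = ((N : ℂ) * s) ^ 2 := by ring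
        _ = (p1 * q2 + p2 * q1) ^ 2 - 4 * ((p1 * q1) * (p2 * q2)) := by
            rw [hsN]
            ring
        _ = _ := by
            rw [← hbC, ← ha, ← hc]
            ring
    exact mul_left_cancel₀ (pow_ne_zero 2 hNC) h3
  have ha0 : a ≠ 0 := by
    intro h
    rw [h, Int.cast_zero, mul_zero] at ha
    exact mul_ne_zero hp10 hq10 ha.symm
  have hc0 : c ≠ 0 := by
    intro h
    rw [h, Int.cast_zero, mul_zero] at hc
    exact mul_ne_zero hp20 hq20 hc.symm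
  have haC : (a : ℂ) ≠ 0 := by exact_mod_cast ha0
  have haR : (0 : ℝ) < |(a : ℝ)| := abs_pos.2 (by exact_mod_cast ha0)
  have hD : b ^ 2 - 4 * (a * c) ≠ 0 := by
    intro h
    rw [h, Int.cast_zero] at hsD
    have hs0 : s = 0 := pow_eq_zero_iff (two_ne_zero) |>.1 hsD
    rw [hs0, mul_zero] at hsN
    have h3 : ∀ φ : L →+* ℂ, φ ((ξ₂ : L) / ξ₁) = ψ₁ ((ξ₂ : L) / ξ₁) := by
      intro φ
      have h4 : φ ∈ ({ψ₁, ψ₂} : Finset (L →+* ℂ)) := by
        rw [← huniv]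
        exact Finset.mem_univ φ
      rw [Finset.mem_insert, Finset.mem_singleton] at h4
      rcases h4 with h4 | h4
      · rw [h4]
      · rw [h4, map_div₀, map_div₀, ← hp1, ← hp2, ← hq1, ← hq2]
        rw [div_eq_div_iff hq10 hp10]
        linear_combination -hsN
    obtain ⟨r, hr⟩ := rat_of_eq ψ₁ _ h3
    rw [div_eq_iff hL1] at hr
    have hden : ((r.den : ℤ) : L) ≠ 0 := by
      have := r.den_nz
      exact_mod_cast this
    apply hx ((ξ₁ : L) / ((r.den : ℤ) : L)) (fun i => u i * r.den + v i * r.num)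
    intro i
    rw [hxi i, vadd, vmul, vmul, vint, vint, hr]
    have hrd : (r : L) = ((r.num : ℤ) : L) / ((r.den : ℤ) : L) := by
      rw [Rat.cast_def]
      norm_cast
    rw [hrd]
    push_cast
    push_cast at hden
    field_simp
  have hv1 : (fun i => ψ₁ (x i)) = (p1 / (2 * a)) • YY (-s) u v a b := by
    funext i
    rw [hxi i, vadd, vmul, vmul, vint, vint, map_add, map_mul, map_mul, map_intCast, map_intCast, ← hp1, ← hp2]
    show _ = (p1 / (2 * a)) * (2 * a * u i + (b + -s) * v i)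
    have h3 : p2 = p1 / (2 * a) * (b + -s) := by
      rw [div_mul_eq_mul_div, eq_div_iff (mul_ne_zero two_ne_zero haC)]
      apply mul_left_cancel₀ hNC
      linear_combination (2 * p2) * ha - p1 * hbC + p1 * hsN
    have h4 : p1 = p1 / (2 * a) * (2 * a) := by
      field_simp
    calc (u i : ℂ) * p1 + v i * p2 = u i * (p1 / (2 * a) * (2 * a)) + v i * (p1 / (2 * a) * (b + -s)) := by
          rw [← h3, ← h4]
      _ = _ := by ring
  have hv2 : (fun i => ψ₂ (x i)) = (q1 / (2 * a)) • YY s u v a b := by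
    funext i
    rw [hxi i, vadd, vmul, vmul, vint, vint, map_add, map_mul, map_mul, map_intCast, map_intCast, ← hq1, ← hq2]
    show _ = (q1 / (2 * a)) * (2 * a * u i + (b + s) * v i)
    have h3 : q2 = q1 / (2 * a) * (b + s) := by
      rw [div_mul_eq_mul_div, eq_div_iff (mul_ne_zero two_ne_zero haC)]
      apply mul_left_cancel₀ hNC
      linear_combination (2 * q2) * ha - q1 * hbC - q1 * hsN
    have h4 : q1 = q1 / (2 * a) * (2 * a) := by
      field_simp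
    calc (u i : ℂ) * q1 + v i * q2 = u i * (q1 / (2 * a) * (2 * a)) + v i * (q1 / (2 * a) * (b + s)) := by
          rw [← h3, ← h4]
      _ = _ := by ring
  refine ⟨u, v, b, a, c, s, p1 / (2 * a), q1 / (2 * a), ⟨hred, ha0, hc0, hD⟩, hsD,
    div_ne_zero hp10 (mul_ne_zero two_ne_zero haC), div_ne_zero hq10 (mul_ne_zero two_ne_zero haC), hv1, hv2, ?_, ?_⟩
  · have h3 := height_int x hx0
    rw [← hN, huniv, Finset.prod_pair hne, hv1, hv2, norm_smul, norm_smul] at h3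
    have h4 : ‖p1 / (2 * a)‖ * ‖q1 / (2 * (a : ℂ))‖ = (N : ℝ) / (4 * |(a : ℝ)|) := by
      rw [← norm_mul, div_mul_div_comm, ← ha, norm_div, norm_mul, norm_mul, norm_mul, Complex.norm_natCast,
        Complex.norm_intCast, Complex.norm_ofNat]
      field_simp
      norm_num
    have h5 : (N : ℝ) * Height.mulHeight (fun i => (x i : L)) = (N : ℝ) * MM s u v a b := by
      rw [h3]
      unfold MM
      calc ‖p1 / (2 * a)‖ * ‖YY (-s) u v a b‖ * (‖q1 / (2 * (a : ℂ))‖ * ‖YY s u v a b‖) =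
            (‖p1 / (2 * a)‖ * ‖q1 / (2 * (a : ℂ))‖) * (‖YY s u v a b‖ * ‖YY (-s) u v a b‖) := by ring
        _ = _ := by
            rw [h4]
            ring
    exact mul_left_cancel₀ hNR.ne' h5
  · apply op_le_discr ((2 * a * (ξ₂ : L) - b * ξ₁) / ξ₁) _ hD
    apply ψ₁.injective
    rw [map_pow, map_div₀, map_sub, map_mul, map_mul, map_mul, map_intCast, map_intCast, map_intCast, map_ofNat, ← hp1, ← hp2,
      ← hsD]
    have h3 : (2 * a * p2 - b * p1) / p1 = -s := by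
      rw [div_eq_iff hp10]
      apply mul_left_cancel₀ hNC
      linear_combination (2 * p2) * ha - p1 * hbC + p1 * hsN
    rw [h3]
    ring

end Pool.Agent.D0H91.VM
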