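import Mathlib
import Pool.Agent.D0H91.VM.Core

/-! Almost every form is good for all rational points. -/

set_option autoImplicit false

namespace Pool.Agent.D0H91.VM

open Finset MeasureTheory
open scoped ENNReal

/-- the vector as a complex vector -/
def zc {m : ℕ} (w : Fin m → ℤ) : Fin m → ℂ := fun i => (w i : ℂ)

theorem zc_norm {m : ℕ} (w : Fin m → ℤ) : ‖zc w‖ = ‖rv w‖ := by
  apply le_antisymm
  · rw [pi_norm_le_iff_of_nonneg (norm_nonneg _)]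
    intro i
    have := norm_le_pi_norm (rv w) i
    unfold zc
    rw [Complex.norm_intCast]
    exact this
  · rw [pi_norm_le_iff_of_nonneg (norm_nonneg _)]
    intro i
    have := norm_le_pi_norm (zc w) i
    unfold zc at this
    rw [Complex.norm_intCast] at this
    exact this

theorem rv_pos' {m : ℕ} {w : Fin m → ℤ} (h : w ≠ 0) : 1 ≤ ‖rv w‖ := by
  have h1 : ∃ i, w i ≠ 0 := by
    by_contra hc
    push Not at hc
    exact h (funext hc)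
  obtain ⟨i, hi⟩ := h1
  refine le_trans ?_ (norm_le_pi_norm (rv w) i)
  unfold rv
  rw [Real.norm_eq_abs]
  have := Int.one_le_abs hi
  exact_mod_cast this

theorem rat_meas (n e : ℕ) (hn : 1 ≤ n) (A η : ℝ) (hA : 0 ≤ A) (hη : 0 < η) (hη1 : η ≤ 1) :
    ∃ K : ℝ, 0 < K ∧ ∀ (w : Fin (n + 1) → ℤ) (ρ : ℝ), w ≠ 0 → 0 ≤ ρ →
      bx n e A {g | ‖ev g (zc w)‖ ≤ ‖rv w‖ ^ (e + 1) * ρ} ≤ ENNReal.ofReal (K * ρ ^ (1 - η)) := by
  classical
  refine ⟨(2 * A) ^ η * (8 * A) ^ (1 - η) * (2 / η + 2 * A) *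
    (2 * A) ^ (Fintype.card (Sym (Fin (n + 1)) (e + 1)) - 2) + 1, by positivity, ?_⟩
  intro w ρ hw hρ
  have hw1 := rv_pos' hw
  have hw0 : 0 < ‖rv w‖ := by linarith
  obtain ⟨i, hi⟩ := max_coord (zc w)
  obtain ⟨j, hj⟩ : ∃ j : Fin (n + 1), j ≠ i := by
    have : Nontrivial (Fin (n + 1)) := Fin.nontrivial_iff_two_le.2 (by omega)
    exact exists_ne i
  obtain ⟨s, hs⟩ : ∃ s : Sym (Fin (n + 1)) (e + 1), s = Sym.replicate (e + 1) j := ⟨_, rfl⟩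
  obtain ⟨s', hs'⟩ : ∃ s : Sym (Fin (n + 1)) (e + 1), s = Sym.replicate (e + 1) i := ⟨_, rfl⟩
  have hss : s ≠ s' := by
    rw [hs, hs']
    intro h
    apply hj
    have h1 : j ∈ Sym.replicate (e + 1) j := by
      rw [Sym.mem_replicate]
      exact ⟨by omega, rfl⟩
    rw [h, Sym.mem_replicate] at h1
    exact h1.2
  have hmin : ‖mon (zc w) s' * (Pi.single s (1 : ℂ) : Sym (Fin (n + 1)) (e + 1) → ℂ) s -
      (Pi.single s (1 : ℂ) : Sym (Fin (n + 1)) (e + 1) → ℂ) s' * mon (zc w) s‖ = ‖rv w‖ ^ (e + 1) := by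
    rw [Pi.single_eq_same, Pi.single_eq_of_ne hss.symm, mul_one, zero_mul, sub_zero, hs', mon_rep, norm_pow, hi, zc_norm]
  have h1 := multi (mon (zc w)) (Pi.single s (1 : ℂ)) s s' hss (A * (‖rv w‖ ^ (e + 1) * ρ)) A η (by positivity) hA hη hη1
    (by rw [hmin]; positivity)
  rw [hmin] at h1
  have h2 : bx n e A {g | ‖ev g (zc w)‖ ≤ ‖rv w‖ ^ (e + 1) * ρ} ≤ bx n e A
      {g | ‖∑ i, (g i : ℂ) * mon (zc w) i‖ * ‖∑ i, (g i : ℂ) * (Pi.single s (1 : ℂ) : Sym (Fin (n + 1)) (e + 1) → ℂ) i‖ ≤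
        A * (‖rv w‖ ^ (e + 1) * ρ)} := by
    apply measure_mono_ae
    rw [bx_eq]
    filter_upwards [ae_restrict_mem (MeasurableSet.univ_pi fun _ => measurableSet_Icc)] with g hg hg2
    change ‖ev g (zc w)‖ ≤ ‖rv w‖ ^ (e + 1) * ρ at hg2
    show ‖∑ i, (g i : ℂ) * mon (zc w) i‖ * ‖∑ i, (g i : ℂ) * (Pi.single s (1 : ℂ) : Sym (Fin (n + 1)) (e + 1) → ℂ) i‖ ≤
        A * (‖rv w‖ ^ (e + 1) * ρ)
    have e1 : ∑ i, (g i : ℂ) * (Pi.single s (1 : ℂ) : Sym (Fin (n + 1)) (e + 1) → ℂ) i = (g s : ℂ) := by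
      rw [Finset.sum_eq_single s]
      · rw [Pi.single_eq_same, mul_one]
      · intro t _ ht
        rw [Pi.single_eq_of_ne ht, mul_zero]
      · intro h
        exact absurd (Finset.mem_univ s) h
    rw [e1]
    have e2 : ‖(g s : ℂ)‖ ≤ A := by
      rw [Complex.norm_real, Real.norm_eq_abs, abs_le]
      exact hg s (Set.mem_univ s)
    calc ‖∑ i, (g i : ℂ) * mon (zc w) i‖ * ‖(g s : ℂ)‖ ≤ (‖rv w‖ ^ (e + 1) * ρ) * A :=
          mul_le_mul hg2 e2 (norm_nonneg _) (by positivity)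
      _ = _ := by ring
  refine h2.trans (h1.trans ?_)
  rw [← ENNReal.ofReal_pow (by positivity), ← ENNReal.ofReal_mul (by positivity)]
  apply ENNReal.ofReal_le_ofReal
  have e3 : 8 * (A * (‖rv w‖ ^ (e + 1) * ρ) / ‖rv w‖ ^ (e + 1)) = (8 * A) * ρ := by
    field_simp
  rw [e3, Real.mul_rpow (by positivity) hρ]
  have h4 : 0 ≤ ρ ^ (1 - η) := by positivity
  obtain ⟨z, hz⟩ : ∃ z, z = (2 * A) ^ (Fintype.card (Sym (Fin (n + 1)) (e + 1)) - 2) := ⟨_, rfl⟩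
  rw [← hz]
  calc (2 * A) ^ η * ((8 * A) ^ (1 - η) * ρ ^ (1 - η)) * (2 / η + 2 * A) * z =
      ((2 * A) ^ η * (8 * A) ^ (1 - η) * (2 / η + 2 * A) * z) * ρ ^ (1 - η) := by ring
    _ ≤ _ := by
      rw [add_mul, one_mul]
      linarith

theorem rat_core (n e : ℕ) (hn : 1 ≤ n) : ∀ᵐ g : Sym (Fin (n + 1)) (e + 1) → ℝ, ∀ k : ℕ, ∃ C : ℝ,
    ∀ w : Fin (n + 1) → ℤ, w ≠ 0 → 0 < ‖ev g (zc w)‖ ∧
      Real.log (‖rv w‖ ^ (e + 1) / ‖ev g (zc w)‖) ≤ ((n : ℝ) + 1 + 1 / ((k : ℝ) + 1)) * Real.log ‖rv w‖ + C := by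
  apply ae_of_box
  intro A
  have hA : (0 : ℝ) ≤ (A : ℝ) := Nat.cast_nonneg A
  have h1 : ∀ᵐ g ∂(bx n e (A : ℝ)), ∀ w : Fin (n + 1) → ℤ, w ≠ 0 → 0 < ‖ev g (zc w)‖ := by
    rw [ae_all_iff]
    intro w
    by_cases hw : w = 0
    · exact Filter.Eventually.of_forall fun g hg => absurd hw hg
    · obtain ⟨K, hK, hb⟩ := rat_meas n e hn A (1 / 2) hA (by norm_num) (by norm_num)
      have h1 := hb w 0 hw le_rfl
      rw [mul_zero, Real.zero_rpow (by norm_num), mul_zero, ENNReal.ofReal_zero] at h1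
      rw [ae_iff]
      refine measure_mono_null ?_ (le_antisymm h1 bot_le)
      intro g hg
      rw [Set.mem_ofPred_eq] at hg ⊢
      push Not at hg
      exact hg.2
  have h2 : ∀ᵐ g ∂(bx n e (A : ℝ)), ∀ k : ℕ,
      {w : Fin (n + 1) → ℤ | w ≠ 0 ∧ ‖ev g (zc w)‖ ≤ ‖rv w‖ ^ (e + 1) * ‖rv w‖ ^ (-(((n : ℝ) + 1 + 1 / ((k : ℝ) + 1))))}.Finite := by
    rw [ae_all_iff]
    intro k
    obtain ⟨ε, hε⟩ : ∃ ε : ℝ, ε = 1 / ((k : ℝ) + 1) := ⟨_, rfl⟩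
    have hε0 : 0 < ε := by
      rw [hε]
      positivity
    rw [← hε]
    obtain ⟨η, hη⟩ : ∃ η : ℝ, η = (ε / 2) / ((n : ℝ) + 1 + ε) := ⟨_, rfl⟩
    have hη0 : 0 < η := by
      rw [hη]
      positivity
    have hηε : ((n : ℝ) + 1 + ε) * η = ε / 2 := by
      rw [hη]
      field_simp
    have hη1 : η ≤ 1 := by
      rw [hη, div_le_one (by positivity)]
      have : (0 : ℝ) ≤ n := Nat.cast_nonneg n
      linarith
    obtain ⟨K, hK, hb⟩ := rat_meas n e hn A η hA hη0 hη1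
    have h3 : ∀ w : Fin (n + 1) → ℤ, bx n e A {g | w ≠ 0 ∧ ‖ev g (zc w)‖ ≤ ‖rv w‖ ^ (e + 1) *
        ‖rv w‖ ^ (-(((n : ℝ) + 1 + ε)))} ≤ ENNReal.ofReal K * ENNReal.ofReal (‖rv w‖ ^ (-(((n + 1 : ℕ) : ℝ) + ε / 2))) := by
      intro w
      by_cases hw : w = 0
      · have h4 : {g : Sym (Fin (n + 1)) (e + 1) → ℝ | w ≠ 0 ∧ ‖ev g (zc w)‖ ≤ ‖rv w‖ ^ (e + 1) *
            ‖rv w‖ ^ (-(((n : ℝ) + 1 + ε)))} = ∅ := by
          ext g
          constructor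
          · intro hg
            exact absurd hw hg.1
          · intro hg
            exact absurd hg (Set.notMem_empty g)
        rw [h4, measure_empty]
        exact bot_le
      · have hw1 := rv_pos' hw
        have hw0 : 0 < ‖rv w‖ := by linarith
        refine (measure_mono (fun g hg => hg.2)).trans ((hb w (‖rv w‖ ^ (-(((n : ℝ) + 1 + ε)))) hw (by positivity)).trans ?_)
        rw [← ENNReal.ofReal_mul hK.le]
        apply ENNReal.ofReal_le_ofReal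
        apply mul_le_mul_of_nonneg_left _ hK.le
        rw [← Real.rpow_mul hw0.le]
        apply Real.rpow_le_rpow_of_exponent_le hw1
        push_cast
        nlinarith
    have h4 : ∑' w : Fin (n + 1) → ℤ, bx n e A {g | w ≠ 0 ∧ ‖ev g (zc w)‖ ≤ ‖rv w‖ ^ (e + 1) *
        ‖rv w‖ ^ (-(((n : ℝ) + 1 + ε)))} ≠ ⊤ := by
      refine ((ENNReal.tsum_le_tsum h3).trans_lt ?_).ne
      rw [ENNReal.tsum_mul_left]
      exact ENNReal.mul_lt_top ENNReal.ofReal_lt_top (sum_vec (n + 1) _ (by linarith))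
    exact ae_finite_setOfPred_mem h4
  filter_upwards [h1, h2] with g hg1 hg2 k
  have hfin := hg2 k
  obtain ⟨ε, hε⟩ : ∃ ε : ℝ, ε = 1 / ((k : ℝ) + 1) := ⟨_, rfl⟩
  rw [← hε] at hfin ⊢
  obtain ⟨φ, hφ⟩ : ∃ φ : (Fin (n + 1) → ℤ) → ℝ,
    φ = fun w => Real.log (‖rv w‖ ^ (e + 1) / ‖ev g (zc w)‖) - ((n : ℝ) + 1 + ε) * Real.log ‖rv w‖ := ⟨_, rfl⟩
  refine ⟨∑ x ∈ hfin.toFinset, |φ x|, fun w hw => ?_⟩
  have hpos := hg1 w hw
  refine ⟨hpos, ?_⟩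
  have hw0 : 0 < ‖rv w‖ := by
    have := rv_pos' hw
    linarith
  by_cases hx : w ∈ hfin.toFinset
  · have h3 := Finset.single_le_sum (f := fun x => |φ x|) (fun y _ => abs_nonneg (φ y)) hx
    have h4 := le_abs_self (φ w)
    have h5 : φ w = Real.log (‖rv w‖ ^ (e + 1) / ‖ev g (zc w)‖) - ((n : ℝ) + 1 + ε) * Real.log ‖rv w‖ := by
      rw [hφ]
    linarith
  · have h3 : (0 : ℝ) ≤ ∑ x ∈ hfin.toFinset, |φ x| := Finset.sum_nonneg fun y _ => abs_nonneg (φ y)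
    rw [Set.Finite.mem_toFinset, Set.mem_ofPred_eq] at hx
    have h4 : ‖rv w‖ ^ (e + 1) * ‖rv w‖ ^ (-(((n : ℝ) + 1 + ε))) < ‖ev g (zc w)‖ := by
      by_contra hc
      exact hx ⟨hw, not_lt.1 hc⟩
    have h5 : ‖rv w‖ ^ (e + 1) / ‖ev g (zc w)‖ ≤ ‖rv w‖ ^ (((n : ℝ) + 1) + ε) := by
      rw [div_le_iff₀ hpos]
      have e1 : ‖rv w‖ ^ (((n : ℝ) + 1) + ε) * (‖rv w‖ ^ (e + 1) * ‖rv w‖ ^ (-(((n : ℝ) + 1 + ε)))) = ‖rv w‖ ^ (e + 1) := by
        have e2 : ‖rv w‖ ^ (((n : ℝ) + 1) + ε) * ‖rv w‖ ^ (-(((n : ℝ) + 1 + ε))) = 1 := by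
          rw [← Real.rpow_add hw0]
          rw [add_neg_cancel, Real.rpow_zero]
        calc _ = (‖rv w‖ ^ (((n : ℝ) + 1) + ε) * ‖rv w‖ ^ (-(((n : ℝ) + 1 + ε)))) * ‖rv w‖ ^ (e + 1) := by ring
          _ = _ := by rw [e2, one_mul]
      calc ‖rv w‖ ^ (e + 1) = _ := e1.symm
        _ ≤ _ := mul_le_mul_of_nonneg_left h4.le (by positivity)
    have h6 := Real.log_le_log (by positivity) h5
    rw [Real.log_rpow hw0] at h6
    linarith

end Pool.Agent.D0H91.VM
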