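import Mathlib
import Pool.Agent.D0H91.VM.Alg3
import Pool.Agent.D0H91.VM.RatC

/-! Assembly. -/

set_option autoImplicit false

namespace Pool.Agent.D0H91.VM

open Finset NumberField MeasureTheory
open Pool.Agent.H813R3.Voj (op op_pos)

/-- the local term -/
noncomputable def loc {n e : ℕ} (g : Sym (Fin (n + 1)) (e + 1) → ℝ) (z : Fin (n + 1) → ℂ) : ℝ :=
  Real.log (‖z‖ ^ (e + 1) / ‖ev g z‖)

theorem loc_smul {n e : ℕ} (g : Sym (Fin (n + 1)) (e + 1) → ℝ) (z : Fin (n + 1) → ℂ) (r : ℂ) (hr : r ≠ 0) :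
    loc g (r • z) = loc g z := by
  unfold loc
  rw [ev_smul, norm_smul, norm_mul, norm_pow, mul_pow, mul_div_mul_left]
  exact pow_ne_zero _ (norm_ne_zero_iff.2 hr)

/-- the statement for one point -/
def Good {n e : ℕ} (g : Sym (Fin (n + 1)) (e + 1) → ℝ) (ε C : ℝ) {L : Type} [Field L] [NumberField L]
    (x : Fin (n + 1) → L) : Prop :=
  (∀ φ : L →+* ℂ, ev g (fun i => φ (x i)) ≠ 0) ∧
    (∑ φ : L →+* ℂ, loc g (fun i => φ (x i))) / Module.finrank ℚ L ≤
      ((n : ℝ) + 1 + ε) * (Height.logHeight x / Module.finrank ℚ L) +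
        Real.log |(NumberField.discr L : ℝ)| / Module.finrank ℚ L + C

theorem good_smul {n e : ℕ} (g : Sym (Fin (n + 1)) (e + 1) → ℝ) (ε C : ℝ) {L : Type} [Field L] [NumberField L]
    (x : Fin (n + 1) → L) (c : L) (hc : c ≠ 0) (h : Good g ε C (fun i => c * x i)) : Good g ε C x := by
  have h1 : ∀ φ : L →+* ℂ, (fun i => φ (c * x i)) = φ c • (fun i => φ (x i)) := by
    intro φ
    funext i
    show φ (c * x i) = φ c * φ (x i)
    rw [map_mul]
  have hφ : ∀ φ : L →+* ℂ, φ c ≠ 0 := fun φ => (map_ne_zero φ).2 hc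
  obtain ⟨h2, h3⟩ := h
  refine ⟨fun φ hcon => ?_, ?_⟩
  · apply h2 φ
    rw [h1, ev_smul, hcon, mul_zero]
  · have h4 : Height.logHeight (fun i => c * x i) = Height.logHeight x := by
      have : (fun i => c * x i) = c • x := rfl
      rw [this, Height.logHeight_smul_eq_logHeight _ hc]
    rw [h4] at h3
    have h5 : ∑ φ : L →+* ℂ, loc g (fun i => φ (c * x i)) = ∑ φ : L →+* ℂ, loc g (fun i => φ (x i)) := by
      refine Finset.sum_congr rfl fun φ _ => ?_
      rw [h1, loc_smul _ _ _ (hφ φ)]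
    rw [h5] at h3
    exact h3

theorem log_discr_nonneg (L : Type) [Field L] [NumberField L] : 0 ≤ Real.log |(NumberField.discr L : ℝ)| := by
  apply Real.log_nonneg
  have := Int.one_le_abs (NumberField.discr_ne_zero L)
  exact_mod_cast this

/-- rational points -/
theorem good_rat {n e : ℕ} (g : Sym (Fin (n + 1)) (e + 1) → ℝ) (ε C : ℝ) {L : Type} [Field L] [NumberField L]
    (h : ∀ w : Fin (n + 1) → ℤ, w ≠ 0 → 0 < ‖ev g (zc w)‖ ∧
      Real.log (‖rv w‖ ^ (e + 1) / ‖ev g (zc w)‖) ≤ ((n : ℝ) + 1 + ε) * Real.log ‖rv w‖ + C)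
    (w : Fin (n + 1) → ℤ) (hw : w ≠ 0) : Good g ε C (fun i => (w i : L)) := by
  obtain ⟨w', h1, h2⟩ := Finset.extract_gcd w (Finset.univ_nonempty (α := Fin (n + 1)))
  obtain ⟨k, hk⟩ : ∃ k, k = Finset.univ.gcd w := ⟨_, rfl⟩
  rw [← hk] at h1
  have hk0 : k ≠ 0 := by
    intro h3
    apply hw
    funext i
    rw [h1 i (Finset.mem_univ i), h3, zero_mul]
    rfl
  have hw' : w' ≠ 0 := by
    intro h3
    apply hw
    funext i
    rw [h1 i (Finset.mem_univ i), h3]
    simp
  have hkL : (k : L) ≠ 0 := by exact_mod_cast hk0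
  have h3 : Good g ε C (fun i => (w' i : L)) := by
    obtain ⟨h4, h5⟩ := h w' hw'
    have h6 : ∀ φ : L →+* ℂ, (fun i => φ ((w' i : ℤ) : L)) = zc w' := by
      intro φ
      funext i
      rw [map_intCast]
      rfl
    have hf : (0 : ℝ) < Module.finrank ℚ L := by exact_mod_cast Module.finrank_pos
    refine ⟨fun φ => ?_, ?_⟩
    · rw [h6]
      exact norm_pos_iff.1 h4
    · have h7 : ∑ φ : L →+* ℂ, loc g (fun i => φ ((w' i : ℤ) : L)) = Module.finrank ℚ L * loc g (zc w') := by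
        rw [Finset.sum_congr rfl fun φ _ => by rw [h6 φ], Finset.sum_const, Finset.card_univ, NumberField.Embeddings.card,
          nsmul_eq_mul]
      have h8 : Height.logHeight (fun i => ((w' i : ℤ) : L)) = Module.finrank ℚ L * Real.log ‖rv w'‖ := by
        obtain ⟨y, hy⟩ : ∃ y : Fin (n + 1) → 𝓞 L, y = fun i => (w' i : 𝓞 L) := ⟨_, rfl⟩
        have hy0 : y ≠ 0 := by
          intro h9
          apply hw'
          funext i
          have := congrFun h9 i
          rw [hy] at this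
          have h10 : ((w' i : ℤ) : 𝓞 L) = 0 := this
          exact_mod_cast h10
        have h9 := height_int y hy0
        have h10 : Ideal.span (Set.range y) = ⊤ := by
          rw [Ideal.eq_top_iff_one]
          obtain ⟨f, hf'⟩ := Finset.gcd_eq_sum_mul Finset.univ w'
          rw [h2] at hf'
          have h11 : (1 : 𝓞 L) = ∑ i, (f i : 𝓞 L) * y i := by
            have := congrArg (fun z : ℤ => (z : 𝓞 L)) hf'
            simp only [Int.cast_one, Int.cast_sum, Int.cast_mul] at this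
            rw [this, hy]
            exact Finset.sum_congr rfl fun i _ => mul_comm _ _
          rw [h11]
          exact Ideal.sum_mem _ fun i _ => Ideal.mul_mem_left _ _ (Ideal.subset_span ⟨i, rfl⟩)
        rw [h10, Ideal.absNorm_top, Nat.cast_one, one_mul] at h9
        have h12 : (fun i => (y i : L)) = fun i => ((w' i : ℤ) : L) := by
          funext i
          rw [hy]
          exact vint _
        rw [h12] at h9
        rw [Height.logHeight_eq_log_mulHeight, h9]
        have h13 : ∀ φ : L →+* ℂ, ‖fun i => φ (y i)‖ = ‖rv w'‖ := by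
          intro φ
          have : (fun i => φ (y i)) = zc w' := by
            rw [← h6 φ]
            funext i
            rw [hy]
            show φ (((w' i : ℤ) : 𝓞 L) : L) = _
            rw [vint]
          rw [this, zc_norm]
        rw [Finset.prod_congr rfl fun φ _ => h13 φ, Finset.prod_const, Finset.card_univ, NumberField.Embeddings.card,
          Real.log_pow]
      rw [h7, h8, mul_div_cancel_left₀ _ hf.ne', mul_div_cancel_left₀ _ hf.ne']
      unfold loc
      rw [zc_norm]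
      have h9 : 0 ≤ Real.log |(NumberField.discr L : ℝ)| / Module.finrank ℚ L :=
        div_nonneg (log_discr_nonneg L) hf.le
      linarith
  have h4 : (fun i => ((w' i : ℤ) : L)) = fun i => (k : L)⁻¹ * (w i : L) := by
    funext i
    rw [h1 i (Finset.mem_univ i)]
    push_cast
    field_simp
  rw [h4] at h3
  exact good_smul g ε C _ _ (inv_ne_zero hkL) h3

theorem int_of_rank_one {L : Type} [Field L] [NumberField L] (h : Module.finrank ℚ L = 1) (y : 𝓞 L) :
    ∃ z : ℤ, (y : L) = z := by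
  have hc : Fintype.card (L →+* ℂ) = 1 := by rw [NumberField.Embeddings.card, h]
  obtain ⟨φ₀, hφ₀⟩ := Fintype.card_eq_one_iff.1 hc
  obtain ⟨r, hr⟩ := rat_of_eq φ₀ (y : L) (fun φ => by rw [hφ₀ φ])
  have h1 : IsIntegral ℤ (y : L) := y.2
  have h2 : IsIntegral ℤ r := by
    rw [hr] at h1
    rw [← isIntegral_algebraMap_iff (A := ℚ) (B := L) (algebraMap ℚ L).injective]
    rw [eq_ratCast]
    exact h1
  obtain ⟨z, hz⟩ := IsIntegrallyClosed.isIntegral_iff.1 h2
  refine ⟨z, ?_⟩
  rw [hr, ← hz]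
  simp

open Classical in
/-- irrational quadratic points -/
theorem good_quad {n e : ℕ} (g : Sym (Fin (n + 1)) (e + 1) → ℝ) (ε C : ℝ) {L : Type} [Field L] [NumberField L]
    (h2 : Module.finrank ℚ L = 2)
    (h : ∀ (u v : Fin (n + 1) → ℤ) (b a c : ℤ), Val u v b a c →
      0 < ‖ev g (YY (rt (b ^ 2 - 4 * (a * c))) u v a b)‖ * ‖ev g (YY (-rt (b ^ 2 - 4 * (a * c))) u v a b)‖ ∧
      LL g u v b a c ≤ RR ε u v b a c + C)
    (x : Fin (n + 1) → 𝓞 L) (hx : ∀ (l : L) (w : Fin (n + 1) → ℤ), ¬ ∀ i, (x i : L) = l * w i) :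
    Good g ε (C / 2) (fun i => (x i : L)) := by
  have hc : (Finset.univ : Finset (L →+* ℂ)).card = 2 := by rw [Finset.card_univ, NumberField.Embeddings.card, h2]
  obtain ⟨ψ₁, ψ₂, hne, huniv⟩ := Finset.card_eq_two.1 hc
  obtain ⟨u, v, b, a, c, s, r₁, r₂, hval, hs, hr₁, hr₂, hv1, hv2, hM, hop⟩ := extract0 h2 x hx ψ₁ ψ₂ hne huniv
  obtain ⟨hpos, hle⟩ := h u v b a c hval
  obtain ⟨D, hD⟩ : ∃ D, D = b ^ 2 - 4 * (a * c) := ⟨_, rfl⟩
  have hss : rt D = s ∨ rt D = -s := by
    apply sq_eq_sq_iff_eq_or_eq_neg.1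
    rw [rt_sq, hs, ← hD]
  unfold LL RR at hle
  rw [← hD] at hpos hle hop
  -- both signs
  have key : 0 < ‖ev g (YY s u v a b)‖ * ‖ev g (YY (-s) u v a b)‖ ∧
      Real.log ((‖YY s u v a b‖ * ‖YY (-s) u v a b‖) ^ (e + 1) / (‖ev g (YY s u v a b)‖ * ‖ev g (YY (-s) u v a b)‖)) ≤
      ((n : ℝ) + 1 + ε) * Real.log (MM s u v a b) + Real.log (op D.natAbs : ℝ) + C := by
    rcases hss with h3 | h3
    · rw [h3] at hpos hle
      exact ⟨hpos, hle⟩
    · rw [h3, neg_neg] at hpos hle
      rw [MM_neg] at hle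
      constructor
      · rw [mul_comm]
        exact hpos
      · rw [mul_comm ‖YY s u v a b‖, mul_comm ‖ev g (YY s u v a b)‖]
        exact hle
  obtain ⟨hp, hl⟩ := key
  have hp1 : 0 < ‖ev g (YY s u v a b)‖ := by
    rcases eq_or_lt_of_le (norm_nonneg (ev g (YY s u v a b))) with h3 | h3
    · rw [← h3, zero_mul] at hp
      exact absurd hp (lt_irrefl 0)
    · exact h3
  have hp2 : 0 < ‖ev g (YY (-s) u v a b)‖ := by
    rcases eq_or_lt_of_le (norm_nonneg (ev g (YY (-s) u v a b))) with h3 | h3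
    · rw [← h3, mul_zero] at hp
      exact absurd hp (lt_irrefl 0)
    · exact h3
  refine ⟨fun φ => ?_, ?_⟩
  · have h4 : φ ∈ ({ψ₁, ψ₂} : Finset (L →+* ℂ)) := by
      rw [← huniv]
      exact Finset.mem_univ φ
    rw [Finset.mem_insert, Finset.mem_singleton] at h4
    rcases h4 with h4 | h4
    · rw [h4, hv1, ev_smul]
      exact mul_ne_zero (pow_ne_zero _ hr₁) (norm_pos_iff.1 hp2)
    · rw [h4, hv2, ev_smul]
      exact mul_ne_zero (pow_ne_zero _ hr₂) (norm_pos_iff.1 hp1)
  · rw [huniv, Finset.sum_pair hne, hv1, hv2, loc_smul _ _ _ hr₁, loc_smul _ _ _ hr₂, Height.logHeight_eq_log_mulHeight, hM, h2]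
    have hY1 : 0 < ‖YY s u v a b‖ := by
      by_contra hcon
      have h3 : YY s u v a b = 0 := norm_le_zero_iff.1 (not_lt.1 hcon)
      rw [h3] at hp1
      have h4 : (0 : Fin (n + 1) → ℂ) = (0 : ℂ) • (0 : Fin (n + 1) → ℂ) := by simp
      rw [h4, ev_smul] at hp1
      simp at hp1
    have hY2 : 0 < ‖YY (-s) u v a b‖ := by
      by_contra hcon
      have h3 : YY (-s) u v a b = 0 := norm_le_zero_iff.1 (not_lt.1 hcon)
      rw [h3] at hp2
      have h4 : (0 : Fin (n + 1) → ℂ) = (0 : ℂ) • (0 : Fin (n + 1) → ℂ) := by simp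
      rw [h4, ev_smul] at hp2
      simp at hp2
    have h5 : loc g (YY (-s) u v a b) + loc g (YY s u v a b) =
        Real.log ((‖YY s u v a b‖ * ‖YY (-s) u v a b‖) ^ (e + 1) / (‖ev g (YY s u v a b)‖ * ‖ev g (YY (-s) u v a b)‖)) := by
      unfold loc
      rw [← Real.log_mul (by positivity) (by positivity)]
      congr 1
      rw [mul_pow, div_mul_div_comm]
      congr 1
      · ring
      · ring
    rw [h5]
    have h6 : Real.log (op D.natAbs : ℝ) ≤ Real.log |(NumberField.discr L : ℝ)| := by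
      apply Real.log_le_log _ hop
      exact_mod_cast op_pos _
    push_cast
    linarith

theorem main (n e : ℕ) (hn : 1 ≤ n) : ∀ᵐ g : Sym (Fin (n + 1)) (e + 1) → ℝ, ∀ ε : ℝ, 0 < ε → ∃ C : ℝ,
    ∀ (L : Type) [Field L] [NumberField L], Module.finrank ℚ L ≤ 2 → ∀ x : Fin (n + 1) → L, x ≠ 0 → Good g ε C x := by
  filter_upwards [core n e hn, rat_core n e hn] with g hg1 hg2 ε hε
  obtain ⟨k, hk⟩ := exists_nat_gt (1 / ε)
  have hkε : 1 / ((k : ℝ) + 1) ≤ ε := by
    rw [div_le_iff₀ (by positivity)]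
    rw [div_lt_iff₀ hε] at hk
    nlinarith
  obtain ⟨C₁, hC₁⟩ := hg1 k
  obtain ⟨C₂, hC₂⟩ := hg2 k
  refine ⟨|C₁| / 2 + |C₂|, fun L _ _ hL x hx => ?_⟩
  -- integral multiples
  obtain ⟨c, hc⟩ := IsLocalization.exist_integer_multiples_of_finite (nonZeroDivisors (𝓞 L)) x
  have hc0 : ((c : 𝓞 L) : L) ≠ 0 := by
    have := nonZeroDivisors.coe_ne_zero c
    exact_mod_cast this
  choose y hy using hc
  have hy' : ∀ i, (y i : L) = ((c : 𝓞 L) : L) * x i := by
    intro i
    have h1 := hy i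
    rw [Algebra.smul_def] at h1
    exact h1
  apply good_smul g ε _ x _ hc0
  have h1 : (fun i => ((c : 𝓞 L) : L) * x i) = fun i => (y i : L) := by
    funext i
    rw [hy']
  rw [h1]
  have hy0 : (fun i => (y i : L)) ≠ 0 := by
    rw [← h1]
    intro h2
    apply hx
    funext i
    have h3 := congrFun h2 i
    exact (mul_eq_zero.1 h3).resolve_left hc0
  have hf : (0 : ℝ) < Module.finrank ℚ L := by exact_mod_cast Module.finrank_pos
  -- weakening
  have hweak : ∀ C' : ℝ, C' ≤ |C₁| / 2 + |C₂| → ∀ z : Fin (n + 1) → L, Good g (1 / ((k : ℝ) + 1)) C' z →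
      Good g ε (|C₁| / 2 + |C₂|) z := by
    intro C' hC' z hz
    refine ⟨hz.1, hz.2.trans ?_⟩
    have h3 : 0 ≤ Height.logHeight z / Module.finrank ℚ L := div_nonneg (Height.logHeight_nonneg z) hf.le
    have h4 := mul_le_mul_of_nonneg_right hkε h3
    nlinarith
  by_cases hprop : ∃ (l : L) (w : Fin (n + 1) → ℤ), ∀ i, (y i : L) = l * w i
  · obtain ⟨l, w, hlw⟩ := hprop
    have hw : w ≠ 0 := by
      intro h2
      apply hy0
      funext i
      show (y i : L) = 0
      rw [hlw i, h2]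
      simp
    have hl : l ≠ 0 := by
      intro h2
      apply hy0
      funext i
      show (y i : L) = 0
      rw [hlw i, h2, zero_mul]
    apply good_smul g ε _ _ l⁻¹ (inv_ne_zero hl)
    have h2 : (fun i => l⁻¹ * (y i : L)) = fun i => (w i : L) := by
      funext i
      rw [hlw i]
      field_simp
    rw [h2]
    apply hweak C₂ _ _ (good_rat g _ C₂ hC₂ w hw)
    have := le_abs_self C₂
    have := abs_nonneg C₁
    linarith
  · push Not at hprop
    have hnp : ∀ (l : L) (w : Fin (n + 1) → ℤ), ¬ ∀ i, (y i : L) = l * w i := by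
      intro l w h2
      obtain ⟨i, hi⟩ := hprop l w
      exact hi (h2 i)
    have h2 : Module.finrank ℚ L = 2 := by
      have h3 : 0 < Module.finrank ℚ L := Module.finrank_pos
      by_contra h4
      have h5 : Module.finrank ℚ L = 1 := by omega
      choose z hz using fun i => int_of_rank_one h5 (y i)
      apply hnp 1 z
      intro i
      rw [one_mul, hz i]
    apply hweak (C₁ / 2) _ _ (good_quad g _ C₁ h2 hC₁ y hnp)
    have := le_abs_self C₁
    have := abs_nonneg C₂
    linarith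

end Pool.Agent.D0H91.VM
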